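import Mathlib
import Pool.Agent.H177.UC.Basic
import Pool.Agent.H177.UC.Avg

set_option autoImplicit false

/-!
# Strict direct forms of the union-closed sets conjecture
-/

namespace Pool.Agent.H177.UCS

open Finset Pool.Agent.H177.UC

/-- Some meet-irreducible element is above fewer than half of the elements. -/
def Strict (L : Type*) [Lattice L] : Prop :=
  ∃ M : L, InfIrred M ∧ 2 * Nat.card {H : L // H ≤ M} < Nat.card L

/-- Boolean or strict. -/
def Good (L : Type*) [Lattice L] : Prop :=
  (∃ n : ℕ, Nonempty (L ≃o (Fin n → Bool))) ∨ Strict L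

theorem strict_transport {L L' : Type*} [Lattice L] [Lattice L'] (e : L ≃o L')
    (h : Strict L) : Strict L' := by
  obtain ⟨M, ⟨h1, h2⟩, h3⟩ := h
  refine ⟨e M, ⟨?_, ?_⟩, ?_⟩
  · intro hmax
    apply h1
    intro b hb
    have := hmax (e.le_iff_le.mpr hb)
    exact e.le_iff_le.mp this
  · intro b c hbc
    have h4 : e.symm b ⊓ e.symm c = M := by
      rw [← map_inf, hbc, e.symm_apply_apply]
    rcases h2 h4 with h | h
    · left
      rw [← h, e.apply_symm_apply]
    · right
      rw [← h, e.apply_symm_apply]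
  · have h5 : Nat.card {H : L' // H ≤ e M} = Nat.card {H : L // H ≤ M} := by
      symm
      apply Nat.card_congr
      exact e.toEquiv.subtypeEquiv (fun a => (e.le_iff_le).symm)
    rw [h5, ← Nat.card_congr e.toEquiv]
    exact h3

theorem good_transport {L L' : Type*} [Lattice L] [Lattice L'] (e : L ≃o L')
    (h : Good L) : Good L' := by
  rcases h with ⟨n, ⟨f⟩⟩ | h
  · exact Or.inl ⟨n, ⟨e.symm.trans f⟩⟩
  · exact Or.inr (strict_transport e h)

theorem good_prod {L : Type*} [Lattice L] [Finite L] (h : Good L) : Good (L × Bool) := by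
  rcases h with ⟨n, ⟨f⟩⟩ | ⟨M, ⟨h1, h2⟩, h3⟩
  · left
    refine ⟨n + 1, ⟨?_⟩⟩
    have e : L × Bool ≃o Bool × (Fin n → Bool) :=
      { toEquiv := (Equiv.prodComm _ _).trans ((Equiv.refl Bool).prodCongr f.toEquiv)
        map_rel_iff' := by
          rintro ⟨a, b⟩ ⟨a', b'⟩
          change (b, f a) ≤ (b', f a') ↔ (a, b) ≤ (a', b')
          rw [Prod.mk_le_mk, Prod.mk_le_mk, f.le_iff_le, and_comm] }
    exact e.trans (Fin.insertNthOrderIso (fun _ => Bool) 0)
  · right
    refine ⟨(M, true), ⟨?_, ?_⟩, ?_⟩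
    · intro hmax
      apply h1
      intro b hb
      have := hmax (b := (b, true)) ⟨hb, le_rfl⟩
      exact this.1
    · rintro ⟨b, b'⟩ ⟨c, c'⟩ hbc
      rw [Prod.mk_inf_mk, Prod.mk.injEq] at hbc
      obtain ⟨hb1, hb2⟩ := hbc
      have hb' : b' = true := by
        cases b' <;> cases c' <;> simp_all
      have hc' : c' = true := by
        cases b' <;> cases c' <;> simp_all
      rcases h2 hb1 with h | h
      · left
        rw [h, hb']
      · right
        rw [h, hc']
    · have e : {H : L × Bool // H ≤ (M, true)} ≃ {H : L // H ≤ M} × Bool :=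
        { toFun := fun H => (⟨H.1.1, H.2.1⟩, H.1.2)
          invFun := fun H => ⟨(H.1.1, H.2), ⟨H.1.2, Bool.le_true _⟩⟩
          left_inv := fun _ => rfl
          right_inv := fun _ => rfl }
      rw [Nat.card_congr e, Nat.card_prod, Nat.card_prod]
      have : Nat.card Bool = 2 := by simp
      rw [this]
      omega

/-- Splitting off a factor with two elements. -/
theorem split_iso {L : Type*} [Lattice L] (M N : L) (h1 : ∀ K, K ≤ M ∨ N ≤ K) (hNM : ¬ N ≤ M)
    (ha : ∀ H ≤ M, ∃ K, ¬ K ≤ M ∧ K ⊓ M = H)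
    (hb : ∀ K K', ¬ K ≤ M → ¬ K' ≤ M → K ⊓ M = K' ⊓ M → K = K') :
    Nonempty (L ≃o Set.Iic M × Bool) := by
  classical
  have hle : ∀ K K', K ≤ K' ↔ (K ⊓ M ≤ K' ⊓ M ∧ (¬ K ≤ M → ¬ K' ≤ M)) := by
    intro K K'
    constructor
    · intro h
      exact ⟨inf_le_inf_right M h, fun h2 h3 => h2 (h.trans h3)⟩
    · rintro ⟨h2, h3⟩
      by_cases hK : K ≤ M
      · rw [inf_eq_left.mpr hK] at h2
        exact h2.trans inf_le_left
      · have hK' := h3 hK
        have hN : N ≤ K := (h1 K).resolve_left hK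
        have hN' : N ≤ K' := (h1 K').resolve_left hK'
        have h4 : ¬ K ⊓ K' ≤ M := fun h => hNM ((le_inf hN hN').trans h)
        have h5 : K ⊓ K' ⊓ M = K ⊓ M := by
          apply le_antisymm
          · exact inf_le_inf_right M inf_le_left
          · refine le_inf (le_inf inf_le_left ?_) inf_le_right
            exact h2.trans inf_le_left
        have h6 := hb _ _ h4 hK h5
        exact inf_eq_left.mp h6
  let f : L → Set.Iic M × Bool := fun K => (⟨K ⊓ M, inf_le_right⟩, decide (¬ K ≤ M))
  have hf : ∀ K K', f K ≤ f K' ↔ K ≤ K' := by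
    intro K K'
    rw [hle]
    simp only [f, Prod.mk_le_mk]
    apply and_congr_right
    intro _
    by_cases hK : K ≤ M <;> by_cases hK' : K' ≤ M <;> simp [hK, hK']
  have hsurj : Function.Surjective f := by
    rintro ⟨⟨H, hH⟩, b⟩
    cases b with
    | false =>
      refine ⟨H, ?_⟩
      have hH' : H ≤ M := hH
      simp [f, hH']
    | true =>
      obtain ⟨K, hK1, hK2⟩ := ha H hH
      refine ⟨K, ?_⟩
      simp [f, hK1, hK2]
  have hinj : Function.Injective f := by
    intro K K' h
    exact le_antisymm ((hf K K').mp h.le) ((hf K' K).mp h.ge)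
  exact ⟨{ toEquiv := Equiv.ofBijective f ⟨hinj, hsurj⟩, map_rel_iff' := fun {a b} => hf a b }⟩

/-- Double counting, strict form. -/
theorem double_count_strict {L I : Type*} [Finite L] [Finite I] [Nonempty I] [LE L] (M : I → L)
    (D : Set L)
    (hD : ∀ i, Nat.card {H : L // H ∈ D ∧ H ≤ M i} ≤ Nat.card {H : L // H ∈ D ∧ ¬ H ≤ M i})
    (hO : ∀ H : L, H ∉ D → 2 * Nat.card {i : I // H ≤ M i} < Nat.card I) :
    (∃ i, 2 * Nat.card {H : L // H ≤ M i} < Nat.card L) ∨
    ((∀ H, H ∈ D) ∧ ∀ i, 2 * Nat.card {H : L // H ≤ M i} = Nat.card L) := by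
  classical
  have := Fintype.ofFinite L
  have := Fintype.ofFinite I
  simp only [Nat.card_eq_fintype_card, Fintype.card_subtype] at hD hO ⊢
  by_cases hall : ∀ H, H ∈ D
  · by_cases hst : ∃ i, 2 * (univ.filter fun H : L => H ≤ M i).card < Fintype.card L
    · exact Or.inl hst
    · right
      refine ⟨hall, fun i => ?_⟩
      push Not at hst
      have h1 := hst i
      have h2 := hD i
      simp only [hall, true_and] at h2
      have h3 : (univ.filter fun H : L => H ≤ M i).card +
          (univ.filter fun H : L => ¬ H ≤ M i).card = Fintype.card L := by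
        rw [card_filter_add_card_filter_not, card_univ]
      omega
  · left
    push Not at hall
    obtain ⟨H0, hH0⟩ := hall
    by_contra hcon
    push Not at hcon
    have h1 : ∑ _i : I, Fintype.card L ≤ ∑ i : I, 2 * (univ.filter fun H : L => H ≤ M i).card :=
      sum_le_sum fun i _ => hcon i
    have h2 : ∀ i : I, (univ.filter fun H : L => H ≤ M i).card =
        (univ.filter fun H : L => H ∈ D ∧ H ≤ M i).card +
        (univ.filter fun H : L => H ∉ D ∧ H ≤ M i).card := by
      intro i
      rw [← card_union_of_disjoint]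
      · congr 1
        ext H
        simp only [mem_filter, mem_univ, true_and, mem_union]
        tauto
      · rw [disjoint_filter]
        tauto
    have h3 : ∀ i : I, 2 * (univ.filter fun H : L => H ∈ D ∧ H ≤ M i).card ≤
        (univ.filter fun H : L => H ∈ D).card := by
      intro i
      have h4 : (univ.filter fun H : L => H ∈ D).card =
          (univ.filter fun H : L => H ∈ D ∧ H ≤ M i).card +
          (univ.filter fun H : L => H ∈ D ∧ ¬ H ≤ M i).card := by
        rw [← card_union_of_disjoint]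
        · congr 1
          ext H
          simp only [mem_filter, mem_univ, true_and, mem_union]
          tauto
        · rw [disjoint_filter]
          tauto
      have := hD i
      omega
    have h5 : ∑ i : I, 2 * (univ.filter fun H : L => H ∉ D ∧ H ≤ M i).card <
        ∑ _i : I, (univ.filter fun H : L => H ∉ D).card := by
      have e1 : ∑ i : I, 2 * (univ.filter fun H : L => H ∉ D ∧ H ≤ M i).card =
          ∑ H ∈ univ.filter (fun H : L => H ∉ D), 2 * (univ.filter fun i : I => H ≤ M i).card := by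
        rw [← mul_sum, ← mul_sum]
        congr 1
        have e2 : ∀ i : I, (univ.filter fun H : L => H ∉ D ∧ H ≤ M i) =
            (univ.filter fun H : L => H ∉ D).filter (fun H => H ≤ M i) := by
          intro i
          ext H
          simp
        simp only [e2, card_filter _ (univ.filter fun H : L => H ∉ D),
          card_filter _ (univ : Finset I)]
        rw [sum_comm]
      rw [e1]
      have e3 : ∑ _i : I, (univ.filter fun H : L => H ∉ D).card =
          ∑ H ∈ univ.filter (fun H : L => H ∉ D), Fintype.card I := by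
        simp [mul_comm]
      rw [e3]
      apply sum_lt_sum_of_nonempty
      · exact ⟨H0, by simpa using hH0⟩
      · intro H hH
        exact hO H (by simpa using hH)
    have h6 : Fintype.card L = (univ.filter fun H : L => H ∈ D).card +
        (univ.filter fun H : L => H ∉ D).card := by
      rw [← card_univ, card_filter_add_card_filter_not]
    have h7 : ∑ i : I, 2 * (univ.filter fun H : L => H ≤ M i).card <
        ∑ _i : I, Fintype.card L := by
      calc ∑ i : I, 2 * (univ.filter fun H : L => H ≤ M i).card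
          = ∑ i : I, 2 * (univ.filter fun H : L => H ∈ D ∧ H ≤ M i).card +
            ∑ i : I, 2 * (univ.filter fun H : L => H ∉ D ∧ H ≤ M i).card := by
            rw [← sum_add_distrib]
            apply sum_congr rfl
            intro i _
            rw [h2 i]
            ring
        _ < ∑ _i : I, (univ.filter fun H : L => H ∈ D).card +
            ∑ _i : I, (univ.filter fun H : L => H ∉ D).card :=
            add_lt_add_of_le_of_lt (sum_le_sum fun i _ => h3 i) h5
        _ = ∑ _i : I, Fintype.card L := by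
            rw [← sum_add_distrib]
            apply sum_congr rfl
            intro i _
            exact h6.symm
    omega

/-- The averaging theorem, strict form. -/
theorem strict_or_split {L k V : Type*} [Lattice L] [OrderBot L] [Finite L] [Field k]
    [AddCommGroup V] [Module k V] [Finite V] [Nontrivial V]
    (t : L → Submodule k V) (ht : Monotone t) (τ : L → Set (V →ₗ[k] V)) (N : L)
    (hN : ∀ H, t H = ⊤ → N ≤ H) (hNt : t N = ⊤)
    (hex : ∀ φ : Module.Dual k V, φ ≠ 0 → ∃ M, t M = LinearMap.ker φ)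
    (hinv : ∀ H M, H ≤ M → ∀ T ∈ τ H, ∀ v ∈ t M, T v ∈ t M)
    (hjoin : ∀ H, ∀ x : V, (∀ T ∈ τ H, ∃ c : k, T x = c • x) →
      ∃ H', τ H' = τ H ∧ x ∈ t H' ∧ ∀ M, H ≤ M → x ∉ t M → H' ⊓ M = H)
    (hinf : ∀ K M, t (K ⊓ M) = t K ⊓ t M) (hbot : t ⊥ = ⊥)
    (hτb : ∀ T ∈ τ ⊥, ∀ x : V, ∃ c : k, T x = c • x) :
    Strict L ∨ ∃ M : L, t M = ⊥ ∧ (∀ K, K ≤ M ∨ N ≤ K) ∧ ¬ N ≤ M ∧
      (∀ H ≤ M, ∃ K, ¬ K ≤ M ∧ K ⊓ M = H) ∧
      (∀ K K', ¬ K ≤ M → ¬ K' ≤ M → K ⊓ M = K' ⊓ M → K = K') ∧
      (∃ v : V, ∀ w : V, ∃ c : k, w = c • v) := by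
  classical
  have : FiniteDimensional k V := Module.Finite.of_finite
  have : Finite (Module.Dual k V) := by
    obtain ⟨v, hv⟩ := exists_ne (0 : V)
    have : Finite k := Finite.of_injective (fun c : k => c • v) (smul_left_injective k hv)
    exact Module.finite_of_finite k
  -- maximal elements with a given trace
  have hmax : ∀ φ : {φ : Module.Dual k V // φ ≠ 0}, ∃ M, t M = LinearMap.ker φ.1 ∧
      ∀ M', M < M' → t M' = ⊤ := by
    rintro ⟨φ, hφ⟩
    obtain ⟨M, hM⟩ := Set.Finite.exists_maximal (Set.toFinite {M : L | t M = LinearMap.ker φ})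
      (hex φ hφ)
    refine ⟨M, hM.prop, fun M' hM' => ?_⟩
    have h1 : t M = LinearMap.ker φ := hM.prop
    have h2 : LinearMap.ker φ ≤ t M' := h1 ▸ ht hM'.le
    have h3 : t M' ≠ LinearMap.ker φ := fun h => hM.not_gt h hM'
    have h4 : IsCoatom (LinearMap.ker φ) :=
      LinearMap.isCoatom_ker_of_surjective (LinearMap.surjective hφ)
    exact h4.2 _ (lt_of_le_of_ne h2 (Ne.symm h3))
  choose M hM1 hM2 using hmax
  have hNMφ : ∀ φ, ¬ N ≤ M φ := by
    intro φ h
    have hnt : t (M φ) ≠ ⊤ := by
      rw [hM1]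
      intro h
      exact φ.2 (LinearMap.ker_eq_top.mp h)
    apply hnt
    rw [eq_top_iff, ← hNt]
    exact ht h
  have hirr : ∀ φ, InfIrred (M φ) := by
    intro φ
    have hNM := hNMφ φ
    constructor
    · intro h
      exact hNM ((le_sup_right : N ≤ M φ ⊔ N).trans (h le_sup_left))
    · intro b c hbc
      by_contra hcon
      push Not at hcon
      have hb : M φ < b := lt_of_le_of_ne (hbc ▸ inf_le_left) (Ne.symm hcon.1)
      have hc : M φ < c := lt_of_le_of_ne (hbc ▸ inf_le_right) (Ne.symm hcon.2)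
      apply hNM
      rw [← hbc]
      exact le_inf (hN _ (hM2 φ b hb)) (hN _ (hM2 φ c hc))
  -- the functionals with invariant kernel
  let E : L → Set (Module.Dual k V) := fun H => {φ | ∀ T ∈ τ H, ∀ v, φ v = 0 → φ (T v) = 0}
  have hE : ∀ H (φ : {φ : Module.Dual k V // φ ≠ 0}), H ≤ M φ → φ.1 ∈ E H := by
    intro H φ h T hT v hv
    have h1 : v ∈ t (M φ) := by rw [hM1]; exact hv
    have h2 := hinv H (M φ) h T hT v h1
    rw [hM1] at h2
    exact h2
  have hneI : Nonempty {φ : Module.Dual k V // φ ≠ 0} := by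
    obtain ⟨φ, hφ⟩ := exists_ne (0 : Module.Dual k V)
    exact ⟨⟨φ, hφ⟩⟩
  have hstep0 : ∀ φ, ∀ H, Submodule.span k (E H) = ⊤ → H ≤ M φ →
        ∃ H' : L, ∃ x : V, x ∉ t (M φ) ∧ x ∈ t H' ∧
          (Submodule.span k (E H') = ⊤ ∧ ¬ H' ≤ M φ) ∧ H' ⊓ M φ = H := by
    intro φ H hH1 hH2
    obtain ⟨x, hx1, hx2⟩ := exists_eigenvector (τ H) (E H) (fun φ hφ => hφ) hH1
      (hE H φ hH2) φ.2
    have hx3 : x ∉ t (M φ) := by
      rw [hM1]
      exact hx1
    obtain ⟨H', h1, h2, h3⟩ := hjoin H x hx2
    refine ⟨H', x, hx3, h2, ⟨?_, ?_⟩, h3 _ hH2 hx3⟩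
    · have : E H' = E H := by
        simp only [E, h1]
      rw [this]
      exact hH1
    · intro h
      exact hx3 (ht h h2)
  rcases double_count_strict M {H | Submodule.span k (E H) = ⊤} (by
    intro φ
    have hstep : ∀ H : {H : L // H ∈ {H | Submodule.span k (E H) = ⊤} ∧ H ≤ M φ},
        ∃ H' : L, (Submodule.span k (E H') = ⊤ ∧ ¬ H' ≤ M φ) ∧ H' ⊓ M φ = H.1 := by
      rintro ⟨H, hH1, hH2⟩
      obtain ⟨H', x, -, -, h⟩ := hstep0 φ H hH1 hH2
      exact ⟨H', h⟩
    choose f hf1 hf2 using hstep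
    apply Nat.card_le_card_of_injective
      (fun H => (⟨f H, hf1 H⟩ : {H : L // H ∈ {H | Submodule.span k (E H) = ⊤} ∧ ¬ H ≤ M φ}))
    intro H1 H2 h12
    have h : f H1 = f H2 := congrArg Subtype.val h12
    apply Subtype.ext
    rw [← hf2 H1, ← hf2 H2, h]) (by
    intro H hH
    have hH' : Submodule.span k (E H) ≠ ⊤ := hH
    have h1 : Nat.card {φ : {φ : Module.Dual k V // φ ≠ 0} // H ≤ M φ} + 1 ≤
        Nat.card (Submodule.span k (E H)).toAddSubgroup := by
      have : Nat.card (Option {φ : {φ : Module.Dual k V // φ ≠ 0} // H ≤ M φ}) ≤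
          Nat.card (Submodule.span k (E H)).toAddSubgroup := by
        apply Nat.card_le_card_of_injective (fun o => match o with
          | none => ⟨0, (Submodule.span k (E H)).zero_mem⟩
          | some ψ => ⟨ψ.1.1, Submodule.subset_span (hE H ψ.1 ψ.2)⟩)
        intro a b hab
        match a, b with
        | none, none => rfl
        | none, some ψ =>
          exfalso
          exact ψ.1.2 (congrArg Subtype.val hab).symm
        | some ψ, none =>
          exfalso
          exact ψ.1.2 (congrArg Subtype.val hab)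
        | some ψ, some χ =>
          have : ψ.1.1 = χ.1.1 := by
            have h5 := congrArg Subtype.val hab
            exact h5
          congr 1
          exact Subtype.ext (Subtype.ext this)
      rwa [Finite.card_option] at this
    have h2 := two_mul_card_le (Submodule.span k (E H)).toAddSubgroup (by
      intro h
      apply hH'
      rw [eq_top_iff]
      intro y _
      have : y ∈ (Submodule.span k (E H)).toAddSubgroup := by rw [h]; trivial
      exact this)
    have h3 : Nat.card {φ : Module.Dual k V // φ ≠ 0} + 1 = Nat.card (Module.Dual k V) := by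
      rw [← Finite.card_option]
      apply Nat.card_congr
      exact Equiv.optionSubtypeNe (0 : Module.Dual k V)
    omega) with ⟨φ, hφ⟩ | ⟨hall, heq⟩
  · exact Or.inl ⟨M φ, hirr φ, hφ⟩
  · right
    obtain ⟨φ⟩ := hneI
    have hall' : ∀ H, Submodule.span k (E H) = ⊤ := hall
    have hstep1 : ∀ H : {H : L // H ≤ M φ}, ∃ K : {K : L // ¬ K ≤ M φ},
        (∃ x : V, x ∉ t (M φ) ∧ x ∈ t K.1) ∧ K.1 ⊓ M φ = H.1 := by
      rintro ⟨H, hH⟩
      obtain ⟨H', x, h1, h2, ⟨-, h3⟩, h4⟩ := hstep0 φ H (hall' H) hH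
      exact ⟨⟨H', h3⟩, ⟨x, h1, h2⟩, h4⟩
    choose g hg1 hg2 using hstep1
    have hginj : Function.Injective g := by
      intro H1 H2 h12
      apply Subtype.ext
      rw [← hg2 H1, ← hg2 H2, h12]
    have hcard : Nat.card {H : L // H ≤ M φ} = Nat.card {H : L // ¬ H ≤ M φ} := by
      have h1 := heq φ
      have h2 : Nat.card {H : L // H ≤ M φ} + Nat.card {H : L // ¬ H ≤ M φ} = Nat.card L := by
        have := Fintype.ofFinite L
        simp only [Nat.card_eq_fintype_card, Fintype.card_subtype]
        rw [card_filter_add_card_filter_not, card_univ]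
      omega
    have hgbij : Function.Bijective g :=
      (Nat.bijective_iff_injective_and_card g).mpr ⟨hginj, hcard⟩
    have hb : ∀ K K', ¬ K ≤ M φ → ¬ K' ≤ M φ → K ⊓ M φ = K' ⊓ M φ → K = K' := by
      intro K K' hK hK' h
      obtain ⟨H, hH⟩ := hgbij.2 ⟨K, hK⟩
      obtain ⟨H', hH'⟩ := hgbij.2 ⟨K', hK'⟩
      have h1 : K ⊓ M φ = H.1 := by
        rw [← hg2 H, hH]
      have h2 : K' ⊓ M φ = H'.1 := by
        rw [← hg2 H', hH']
      have h3 : H = H' := by
        apply Subtype.ext
        rw [← h1, ← h2, h]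
      rw [h3, hH'] at hH
      exact (congrArg Subtype.val hH).symm
    have ha : ∀ H ≤ M φ, ∃ K, ¬ K ≤ M φ ∧ K ⊓ M φ = H := by
      intro H hH
      exact ⟨(g ⟨H, hH⟩).1, (g ⟨H, hH⟩).2, hg2 _⟩
    -- `V` is a line
    obtain ⟨x1, hx1⟩ : ∃ x1, x1 ∉ t (M φ) := by
      obtain ⟨x, hx, -⟩ := hg1 ⟨⊥, bot_le⟩
      exact ⟨x, hx⟩
    have hφx : ∀ x, x ∉ t (M φ) ↔ φ.1 x ≠ 0 := by
      intro x
      rw [hM1]
      exact Iff.rfl
    have hprop : ∀ x, x ∉ t (M φ) → ∃ c : k, x = c • x1 := by
      intro x hx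
      obtain ⟨K1, -, h1, h1'⟩ := hjoin ⊥ x1 (fun T hT => hτb T hT x1)
      obtain ⟨K2, -, h2, h2'⟩ := hjoin ⊥ x (fun T hT => hτb T hT x)
      have e1 := h1' (M φ) bot_le hx1
      have e2 := h2' (M φ) bot_le hx
      have n1 : ¬ K1 ≤ M φ := fun h => hx1 (ht h h1)
      have n2 : ¬ K2 ≤ M φ := fun h => hx (ht h h2)
      have e3 := hb K1 K2 n1 n2 (e1.trans e2.symm)
      subst e3
      refine ⟨φ.1 x / φ.1 x1, ?_⟩
      rw [← sub_eq_zero]
      have h4 : x - (φ.1 x / φ.1 x1) • x1 ∈ t (K1 ⊓ M φ) := by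
        rw [hinf]
        refine ⟨sub_mem h2 (Submodule.smul_mem _ _ h1), ?_⟩
        rw [hM1]
        have h5 : φ.1 x1 ≠ 0 := (hφx x1).mp hx1
        have h6 : φ.1 (x - (φ.1 x / φ.1 x1) • x1) = 0 := by
          rw [map_sub, map_smul, smul_eq_mul, div_mul_cancel₀ _ h5, sub_self]
        exact h6
      rw [e1, hbot] at h4
      exact h4
    have htM : t (M φ) = ⊥ := by
      rw [eq_bot_iff]
      intro w hw
      have h1 : x1 + w ∉ t (M φ) := by
        intro h
        apply hx1
        have := sub_mem h hw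
        rwa [add_sub_cancel_right] at this
      obtain ⟨c, hc⟩ := hprop _ h1
      have h2 : φ.1 w = 0 := by
        have : w ∈ LinearMap.ker φ.1 := by rw [← hM1]; exact hw
        exact this
      have h3 : φ.1 x1 ≠ 0 := (hφx x1).mp hx1
      have h4 : φ.1 (x1 + w) = c * φ.1 x1 := by rw [hc, map_smul, smul_eq_mul]
      rw [map_add, h2, add_zero] at h4
      have h5 : c = 1 := by
        have : (c - 1) * φ.1 x1 = 0 := by rw [sub_mul, ← h4]; ring
        rcases mul_eq_zero.mp this with h | h
        · exact sub_eq_zero.mp h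
        · exact absurd h h3
      rw [h5, one_smul] at hc
      have h6 : w = 0 := by
        have := congrArg (fun y => y - x1) hc
        simpa using this
      rw [h6]
      exact Submodule.zero_mem _
    have hline : ∀ w : V, ∃ c : k, w = c • x1 := by
      intro w
      by_cases hw : w ∈ t (M φ)
      · rw [htM, Submodule.mem_bot] at hw
        exact ⟨0, by rw [hw, zero_smul]⟩
      · exact hprop w hw
    refine ⟨M φ, htM, ?_, hNMφ φ, ha, hb, ⟨x1, hline⟩⟩
    intro K
    by_cases hK : K ≤ M φ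
    · exact Or.inl hK
    · right
      obtain ⟨H, hH⟩ := hgbij.2 ⟨K, hK⟩
      obtain ⟨x, hx1', hx2⟩ := hg1 H
      rw [hH] at hx2
      apply hN
      rw [eq_top_iff]
      intro w _
      obtain ⟨c, hc⟩ := hline x
      obtain ⟨d, hd⟩ := hline w
      have hc0 : c ≠ 0 := by
        rintro rfl
        apply hx1'
        rw [hc, zero_smul]
        exact Submodule.zero_mem _
      have : w = (d * c⁻¹) • x := by
        rw [hc, smul_smul, mul_assoc, inv_mul_cancel₀ hc0, mul_one, ← hd]
      rw [this]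
      exact Submodule.smul_mem _ _ hx2

end Pool.Agent.H177.UCS
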