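import Mathlib
import Pool.Agent.H177.UC.Assoc
import Pool.Agent.H177.UCS.Algebra

set_option autoImplicit false

/-!
# Strict forms for the subalgebras of finite algebras
-/

namespace Pool.Agent.H177.UCS

open Finset Pool.Agent.H177.UC

universe u v w

section iic

variable {S : Type u} {A : Type v} [CommRing S] [NonUnitalNonAssocRing A] [Module S A]
  [IsScalarTower S A A] [SMulCommClass S A A]

/-- The subalgebras contained in `B` are the subalgebras of `B`. -/
def iicIso (B : NonUnitalSubalgebra S A) : Set.Iic B ≃o NonUnitalSubalgebra S B where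
  toFun H :=
    { carrier := {x : B | (x : A) ∈ H.1}
      add_mem' := fun {a b} ha hb => add_mem (S := NonUnitalSubalgebra S A) ha hb
      zero_mem' := zero_mem H.1
      mul_mem' := fun {a b} ha hb => mul_mem (S := NonUnitalSubalgebra S A) ha hb
      smul_mem' := fun s a ha => H.1.smul_mem' s ha }
  invFun K :=
    ⟨{ carrier := {a : A | ∃ h : a ∈ B, (⟨a, h⟩ : B) ∈ K}
       add_mem' := by
        rintro a b ⟨ha, ha'⟩ ⟨hb, hb'⟩
        exact ⟨add_mem ha hb, add_mem (S := NonUnitalSubalgebra S B) ha' hb'⟩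
       zero_mem' := ⟨zero_mem B, zero_mem K⟩
       mul_mem' := by
        rintro a b ⟨ha, ha'⟩ ⟨hb, hb'⟩
        exact ⟨mul_mem ha hb, mul_mem (S := NonUnitalSubalgebra S B) ha' hb'⟩
       smul_mem' := by
        rintro s a ⟨ha, ha'⟩
        exact ⟨B.smul_mem' s ha, K.smul_mem' s ha'⟩ }, fun _ h => h.1⟩
  left_inv := by
    rintro ⟨H, hH⟩
    apply Subtype.ext
    apply SetLike.coe_injective
    ext a
    constructor
    · rintro ⟨_, h⟩
      exact h
    · intro h
      exact ⟨hH h, h⟩
  right_inv := by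
    intro K
    apply SetLike.coe_injective
    ext ⟨a, ha⟩
    constructor
    · rintro ⟨_, h⟩
      exact h
    · intro h
      exact ⟨ha, h⟩
  map_rel_iff' := by
    rintro ⟨H, hH⟩ ⟨K, hK⟩
    constructor
    · intro h a ha
      exact @h ⟨a, hH ha⟩ ha
    · intro h a ha
      exact h ha

theorem good_of_split {M N : NonUnitalSubalgebra S A} [Finite A]
    (h1 : ∀ K, K ≤ M ∨ N ≤ K) (hNM : ¬ N ≤ M)
    (ha : ∀ H ≤ M, ∃ K, ¬ K ≤ M ∧ K ⊓ M = H)
    (hb : ∀ K K', ¬ K ≤ M → ¬ K' ≤ M → K ⊓ M = K' ⊓ M → K = K')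
    (hM : Good (NonUnitalSubalgebra S M)) : Good (NonUnitalSubalgebra S A) := by
  have hfin : Finite (NonUnitalSubalgebra S A) :=
    Finite.of_injective (fun H => (H : Set A)) SetLike.coe_injective
  obtain ⟨e⟩ := split_iso M N h1 hNM ha hb
  have h2 : Good (Set.Iic M) := good_transport (iicIso M).symm hM
  exact good_transport e.symm (good_prod h2)

theorem good_of_subsingleton [Subsingleton A] : Good (NonUnitalSubalgebra S A) := by
  left
  refine ⟨0, ⟨?_⟩⟩
  have hs : Subsingleton (NonUnitalSubalgebra S A) := by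
    constructor
    intro H K
    apply SetLike.coe_injective
    ext a
    have : a = 0 := Subsingleton.elim _ _
    rw [this]
    exact ⟨fun _ => zero_mem K, fun _ => zero_mem H⟩
  exact
    { toFun := fun _ _ => true
      invFun := fun _ => ⊥
      left_inv := fun _ => Subsingleton.elim _ _
      right_inv := fun _ => Subsingleton.elim _ _
      map_rel_iff' := fun {a b} => by
        constructor
        · intro _
          exact (Subsingleton.elim a b).le
        · intro _
          exact le_refl (fun _ => true) }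

theorem card_lt_of_ne_top [Finite A] {M : NonUnitalSubalgebra S A} (h : M ≠ ⊤) :
    Nat.card M < Nat.card A := by
  by_contra hcon
  push Not at hcon
  apply h
  have hinj : Function.Injective (fun x : M => (x : A)) := Subtype.val_injective
  have hle := Nat.card_le_card_of_injective _ hinj
  have hbij := (Nat.bijective_iff_injective_and_card (fun x : M => (x : A))).mpr
    ⟨hinj, le_antisymm hle hcon⟩
  rw [eq_top_iff]
  intro a _
  obtain ⟨x, rfl⟩ := hbij.2 a
  exact x.2

end iic

/-- Algebras all of whose nonzero subalgebras have a nonzero ideal of square zero. -/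
theorem good_of_hereditary {S : Type u} [CommRing S] : ∀ (n : ℕ) (A : Type v)
    [NonUnitalNonAssocRing A] [Module S A]
    [IsScalarTower S A A] [SMulCommClass S A A] [Finite A],
    Nat.card A = n →
    (∀ B : NonUnitalSubalgebra S A, B ≠ ⊥ → ∃ N : Submodule S A, N ≠ ⊥ ∧ (∀ n ∈ N, n ∈ B) ∧
      (∀ b ∈ B, ∀ n ∈ N, b * n ∈ N ∧ n * b ∈ N) ∧ ∀ m ∈ N, ∀ n ∈ N, m * n = 0) →
    Good (NonUnitalSubalgebra S A) := by
  intro n
  induction n using Nat.strong_induction_on with
  | _ n ih =>
    intro A _ _ _ _ _ hn hA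
    by_cases htop : (⊤ : NonUnitalSubalgebra S A) = ⊥
    · have : Subsingleton A := by
        constructor
        intro a b
        have ha : a ∈ (⊤ : NonUnitalSubalgebra S A) := trivial
        have hb : b ∈ (⊤ : NonUnitalSubalgebra S A) := trivial
        rw [htop, NonUnitalAlgebra.mem_bot] at ha hb
        rw [ha, hb]
      exact good_of_subsingleton
    · obtain ⟨N, h1, -, h2, h3⟩ := hA ⊤ htop
      rcases algebra_square_zero N (fun a n hn => (h2 a trivial n hn).1)
        (fun a n hn => (h2 a trivial n hn).2) h3 h1 with h | ⟨M, P, -, -, g3, g4, g5, g6, -⟩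
      · exact Or.inr h
      · apply good_of_split g3 g4 g5 g6
        have hMtop : M ≠ ⊤ := by
          rintro rfl
          exact g4 le_top
        refine ih (Nat.card M) (hn ▸ card_lt_of_ne_top hMtop) M rfl ?_
        intro B hB
        obtain ⟨B', hB'⟩ := (iicIso M).surjective B
        subst hB'
        have hB0 : B'.1 ≠ ⊥ := by
          intro h
          apply hB
          have : B' = (⟨⊥, Set.mem_Iic.mpr bot_le⟩ : Set.Iic M) := Subtype.ext h
          rw [this, eq_bot_iff]
          rintro ⟨x, hx⟩ h4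
          have h5 : x ∈ (⊥ : NonUnitalSubalgebra S A) := h4
          rw [NonUnitalAlgebra.mem_bot] at h5 ⊢
          exact Subtype.ext h5
        obtain ⟨N', k1, k2, k3, k4⟩ := hA B'.1 hB0
        refine ⟨{ carrier := {x : M | (x : A) ∈ N'}
                  add_mem' := fun {a b} ha hb => N'.add_mem ha hb
                  zero_mem' := N'.zero_mem
                  smul_mem' := fun s a ha => N'.smul_mem s ha }, ?_, ?_, ?_, ?_⟩
        · obtain ⟨x, hx, hx0⟩ := (Submodule.ne_bot_iff N').mp k1
          rw [Submodule.ne_bot_iff]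
          refine ⟨⟨x, B'.2 (k2 x hx)⟩, hx, ?_⟩
          intro h
          exact hx0 (congrArg Subtype.val h)
        · intro x hx
          exact k2 _ hx
        · intro b hb x hx
          exact k3 _ hb _ hx
        · intro x hx y hy
          exact Subtype.ext (k4 _ hx _ hy)

section

variable {S : Type u} {A : Type v} [CommRing S] [NonUnitalRing A] [Module S A]
  [IsScalarTower S A A] [SMulCommClass S A A] [Finite A]

/-- Finite associative algebras: the induction step. -/
theorem assoc_step [Nontrivial A] :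
    Strict (NonUnitalSubalgebra S A) ∨ ∃ M N : NonUnitalSubalgebra S A,
      (∀ K, K ≤ M ∨ N ≤ K) ∧ ¬ N ≤ M ∧
      (∀ H ≤ M, ∃ K, ¬ K ≤ M ∧ K ⊓ M = H) ∧
      (∀ K K', ¬ K ≤ M → ¬ K' ≤ M → K ⊓ M = K' ⊓ M → K = K') := by
  classical
  have hfinL : Finite (NonUnitalSubalgebra S A) :=
    Finite.of_injective (fun H => (H : Set A)) SetLike.coe_injective
  have hfin : Finite (Submodule S A) :=
    Finite.of_injective (fun H => (H : Set A)) SetLike.coe_injective
  by_cases hN : ∃ N : Submodule S A, (∀ a : A, ∀ n ∈ N, a * n ∈ N) ∧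
      (∀ a : A, ∀ n ∈ N, n * a ∈ N) ∧ (∀ m ∈ N, ∀ n ∈ N, m * n = 0) ∧ N ≠ ⊥
  · obtain ⟨N, h1, h2, h3, h4⟩ := hN
    rcases algebra_square_zero N h1 h2 h3 h4 with h | ⟨M, P, -, -, g3, g4, g5, g6, -⟩
    · exact Or.inl h
    · exact Or.inr ⟨M, P, g3, g4, g5, g6⟩
  have hsp : ∀ N : Submodule S A, (∀ a : A, ∀ n ∈ N, a * n ∈ N) →
      (∀ a : A, ∀ n ∈ N, n * a ∈ N) → (∀ m ∈ N, ∀ n ∈ N, m * n = 0) → N = ⊥ := by
    intro N h1 h2 h3
    by_contra h4
    exact hN ⟨N, h1, h2, h3, h4⟩
  have hF0 : ∀ n : A, (∀ b, n * b = 0) → n = 0 := by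
    let Z : Submodule S A :=
      { carrier := {n | ∀ b, n * b = 0}
        add_mem' := by
          intro x y hx hy b
          rw [add_mul, hx b, hy b, add_zero]
        zero_mem' := fun b => zero_mul b
        smul_mem' := by
          intro s x hx b
          rw [smul_mul_assoc, hx b, smul_zero] }
    have hZ : ∀ x, x ∈ Z ↔ ∀ b, x * b = 0 := fun x => Iff.rfl
    have : Z = ⊥ := by
      apply hsp
      · intro a n hn
        rw [hZ] at hn ⊢
        intro b
        rw [mul_assoc, hn b, mul_zero]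
      · intro a n hn
        rw [hZ] at hn ⊢
        intro b
        rw [mul_assoc]
        exact hn _
      · intro m hm n _
        exact (hZ m).mp hm n
    intro n hn
    have h : n ∈ Z := (hZ n).mpr hn
    rwa [this, Submodule.mem_bot] at h
  obtain ⟨V, hV⟩ := Set.Finite.exists_minimal
    (Set.toFinite {V : Submodule S A | V ≠ ⊥ ∧ ∀ v ∈ V, ∀ a : A, v * a ∈ V})
    ⟨⊤, top_ne_bot, fun v _ a => trivial⟩
  have hVne : V ≠ ⊥ := hV.prop.1
  have hVr : ∀ v ∈ V, ∀ a : A, v * a ∈ V := hV.prop.2
  have hVmin : ∀ W : Submodule S A, W ≤ V → (∀ v ∈ W, ∀ a : A, v * a ∈ W) → W ≠ ⊥ → W = V := by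
    intro W hWV hW hWne
    exact le_antisymm hWV (hV.le_of_le ⟨hWne, hW⟩ hWV)
  have hF1 : ∀ v ∈ V, v ≠ 0 → ∀ w ∈ V, ∃ a, v * a = w := by
    intro v hv hv0
    let W : Submodule S A :=
      { carrier := {w | ∃ a, v * a = w}
        add_mem' := by
          rintro _ _ ⟨a, rfl⟩ ⟨b, rfl⟩
          exact ⟨a + b, mul_add _ _ _⟩
        zero_mem' := ⟨0, mul_zero v⟩
        smul_mem' := by
          rintro s _ ⟨a, rfl⟩
          exact ⟨s • a, mul_smul_comm _ _ _⟩ }
    have hW : ∀ w, w ∈ W ↔ ∃ a, v * a = w := fun w => Iff.rfl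
    have : W = V := by
      apply hVmin
      · intro w hw
        obtain ⟨a, rfl⟩ := (hW w).mp hw
        exact hVr v hv a
      · intro w hw b
        obtain ⟨a, rfl⟩ := (hW w).mp hw
        exact (hW _).mpr ⟨a * b, (mul_assoc _ _ _).symm⟩
      · intro h
        apply hv0
        apply hF0
        intro b
        have : v * b ∈ W := (hW _).mpr ⟨b, rfl⟩
        rwa [h, Submodule.mem_bot] at this
    intro w hw
    rw [← this] at hw
    exact (hW w).mp hw
  -- the annihilator of `V` and its annihilator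
  let I : Submodule S A :=
    { carrier := {a | ∀ v ∈ V, v * a = 0}
      add_mem' := by
        intro x y hx hy v hv
        rw [mul_add, hx v hv, hy v hv, add_zero]
      zero_mem' := fun v _ => mul_zero v
      smul_mem' := by
        intro s x hx v hv
        rw [mul_smul_comm, hx v hv, smul_zero] }
  have hI : ∀ a, a ∈ I ↔ ∀ v ∈ V, v * a = 0 := fun a => Iff.rfl
  have hIl : ∀ a : A, ∀ x ∈ I, a * x ∈ I := by
    intro a x hx
    rw [hI] at hx ⊢
    intro v hv
    rw [← mul_assoc]
    exact hx _ (hVr v hv a)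
  have hIr : ∀ a : A, ∀ x ∈ I, x * a ∈ I := by
    intro a x hx
    rw [hI] at hx ⊢
    intro v hv
    rw [← mul_assoc, hx v hv, zero_mul]
  let N : NonUnitalSubalgebra S A :=
    { carrier := {n | ∀ a ∈ I, n * a = 0}
      add_mem' := by
        intro x y hx hy a ha
        rw [add_mul, hx a ha, hy a ha, add_zero]
      zero_mem' := fun a _ => zero_mul a
      mul_mem' := by
        intro x y hx hy a ha
        rw [mul_assoc, hy a ha, mul_zero]
      smul_mem' := by
        intro s x hx a ha
        rw [smul_mul_assoc, hx a ha, smul_zero] }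
  have hN' : ∀ n, n ∈ N ↔ ∀ a ∈ I, n * a = 0 := fun n => Iff.rfl
  have hNl : ∀ b : A, ∀ n ∈ N, b * n ∈ N := by
    intro b n hn
    rw [hN'] at hn ⊢
    intro a ha
    rw [mul_assoc, hn a ha, mul_zero]
  have hNr : ∀ b : A, ∀ n ∈ N, n * b ∈ N := by
    intro b n hn
    rw [hN'] at hn ⊢
    intro a ha
    rw [mul_assoc]
    exact hn _ (hIl b a ha)
  have hVN : ∀ v ∈ V, v ∈ N := by
    intro v hv
    rw [hN']
    intro a ha
    exact (hI a).mp ha v hv
  have hNI : ∀ x, x ∈ N → x ∈ I → x = 0 := by
    have : (N.toSubmodule ⊓ I) = ⊥ := by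
      apply hsp
      · rintro a n ⟨h1, h2⟩
        exact ⟨hNl a n h1, hIl a n h2⟩
      · rintro a n ⟨h1, h2⟩
        exact ⟨hNr a n h1, hIr a n h2⟩
      · rintro m ⟨h1, _⟩ n ⟨_, h2⟩
        exact (hN' m).mp h1 n h2
    intro x h1 h2
    have h : x ∈ N.toSubmodule ⊓ I := ⟨h1, h2⟩
    rwa [this, Submodule.mem_bot] at h
  have hvN : ∀ v ∈ V, v ≠ 0 → ∃ n ∈ N, v * n ≠ 0 := by
    intro v hv hv0
    by_contra hcon
    push Not at hcon
    -- then all of `V` is annihilated by `N`
    have h1 : ∀ w ∈ V, ∀ n ∈ N, w * n = 0 := by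
      intro w hw n hn
      obtain ⟨a, rfl⟩ := hF1 v hv hv0 w hw
      rw [mul_assoc]
      exact hcon _ (hNl a n hn)
    apply hv0
    apply hNI v (hVN v hv)
    rw [hI]
    intro w hw
    exact h1 w hw v (hVN v hv)
  -- adding `N`
  let addN : NonUnitalSubalgebra S A → NonUnitalSubalgebra S A := fun H =>
    { carrier := {y | ∃ h ∈ H, ∃ n ∈ N, y = h + n}
      add_mem' := by
        rintro _ _ ⟨h, hh, n, hn, rfl⟩ ⟨h', hh', n', hn', rfl⟩
        exact ⟨h + h', add_mem hh hh', n + n', add_mem hn hn', by abel⟩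
      zero_mem' := ⟨0, zero_mem H, 0, zero_mem N, (add_zero 0).symm⟩
      mul_mem' := by
        rintro _ _ ⟨h, hh, n, hn, rfl⟩ ⟨h', hh', n', hn', rfl⟩
        refine ⟨h * h', mul_mem hh hh', h * n' + n * (h' + n'),
          add_mem (hNl h n' hn') (hNr _ n hn), ?_⟩
        rw [add_mul, mul_add h]
        abel
      smul_mem' := by
        rintro s _ ⟨h, hh, n, hn, rfl⟩
        exact ⟨s • h, SMulMemClass.smul_mem s hh, s • n, SMulMemClass.smul_mem s hn,
          smul_add _ _ _⟩ }
  have haddN : ∀ H y, y ∈ addN H ↔ ∃ h ∈ H, ∃ n ∈ N, y = h + n := fun H y => Iff.rfl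
  have hNadd : ∀ H, N ≤ addN H := fun H n hn => (haddN H n).mpr
    ⟨0, zero_mem H, n, hn, (zero_add n).symm⟩
  have hinj : ∀ H : NonUnitalSubalgebra S A, (∀ h ∈ H, h ∈ I) →
      ∀ x, x ∈ H ↔ x ∈ addN H ∧ x ∈ I := by
    intro H hH x
    constructor
    · intro hx
      exact ⟨(haddN H x).mpr ⟨x, hx, 0, zero_mem N, (add_zero x).symm⟩, hH x hx⟩
    · rintro ⟨hx1, hx2⟩
      obtain ⟨h, hh, n, hn, rfl⟩ := (haddN H x).mp hx1
      have h1 : n ∈ I := by
        have := I.sub_mem hx2 (hH h hh)
        rwa [add_sub_cancel_left] at this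
      rw [hNI n hn h1, add_zero]
      exact hh
  obtain ⟨v0, hv0V, hv00⟩ := (Submodule.ne_bot_iff V).mp hVne
  have hneI : Nonempty {v : A // v ∈ V ∧ v ≠ 0} := ⟨⟨v0, hv0V, hv00⟩⟩
  have hmain := double_count_strict
    (fun v : {v : A // v ∈ V ∧ v ≠ 0} => annOf S v.1)
    {H | (∀ h ∈ H, h ∈ I) ∨ ∃ H0 : NonUnitalSubalgebra S A, (∀ h ∈ H0, h ∈ I) ∧ H = addN H0}
    (by
      rintro ⟨v, hvV, hv0⟩
      obtain ⟨n, hn, hvn⟩ := hvN v hvV hv0
      have hstep : ∀ H : {H : NonUnitalSubalgebra S A // H ∈ {H | (∀ h ∈ H, h ∈ I) ∨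
          ∃ H0 : NonUnitalSubalgebra S A, (∀ h ∈ H0, h ∈ I) ∧ H = addN H0} ∧ H ≤ annOf S v},
          ∀ h ∈ H.1, h ∈ I := by
        rintro ⟨H, hH1 | ⟨H0, hH0, rfl⟩, hH2⟩
        · exact hH1
        · exact absurd (mem_annOf.mp (hH2 (hNadd H0 hn))) hvn
      apply Nat.card_le_card_of_injective (fun H => (⟨addN H.1, Or.inr ⟨H.1, hstep H, rfl⟩,
        fun h => hvn (mem_annOf.mp (h (hNadd H.1 hn)))⟩ :
        {H : NonUnitalSubalgebra S A // H ∈ {H | (∀ h ∈ H, h ∈ I) ∨
          ∃ H0 : NonUnitalSubalgebra S A, (∀ h ∈ H0, h ∈ I) ∧ H = addN H0} ∧ ¬ H ≤ annOf S v}))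
      intro H1 H2 h12
      have h : addN H1.1 = addN H2.1 := congrArg Subtype.val h12
      apply Subtype.ext
      ext x
      rw [hinj _ (hstep H1), hinj _ (hstep H2), h])
    (by
      intro H hH
      have hH' : ¬ ∀ h ∈ H, h ∈ I := fun h => hH (Or.inl h)
      push Not at hH'
      obtain ⟨h, hhH, hhI⟩ := hH'
      rw [hI] at hhI
      push Not at hhI
      obtain ⟨v1, hv1, hv1h⟩ := hhI
      let K : AddSubgroup V :=
        { carrier := {v | ∀ h ∈ H, (v : A) * h = 0}
          add_mem' := by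
            intro a b ha hb h hh
            rw [Submodule.coe_add, add_mul, ha h hh, hb h hh, add_zero]
          zero_mem' := fun h _ => zero_mul h
          neg_mem' := by
            intro a ha h hh
            rw [Submodule.coe_neg, neg_mul, ha h hh, neg_zero] }
      have hK : ∀ v, v ∈ K ↔ ∀ h ∈ H, (v : A) * h = 0 := fun v => Iff.rfl
      have hKtop : K ≠ ⊤ := by
        intro htop
        have : (⟨v1, hv1⟩ : V) ∈ K := by rw [htop]; trivial
        exact hv1h ((hK _).mp this h hhH)
      have h1 := two_mul_card_le K hKtop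
      have h2 : Nat.card {v : {v : A // v ∈ V ∧ v ≠ 0} // H ≤ annOf S v.1} + 1 ≤ Nat.card K := by
        have : Nat.card (Option {v : {v : A // v ∈ V ∧ v ≠ 0} // H ≤ annOf S v.1}) ≤
            Nat.card K := by
          apply Nat.card_le_card_of_injective (fun o => match o with
            | none => (⟨0, K.zero_mem⟩ : K)
            | some w => ⟨⟨w.1.1, w.1.2.1⟩, fun h hh => mem_annOf.mp (w.2 hh)⟩)
          intro a b hab
          match a, b with
          | none, none => rfl
          | none, some w =>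
            exfalso
            have h5 := congrArg Subtype.val (congrArg Subtype.val hab)
            exact w.1.2.2 h5.symm
          | some w, none =>
            exfalso
            have h5 := congrArg Subtype.val (congrArg Subtype.val hab)
            exact w.1.2.2 h5
          | some w, some w' =>
            have h5 := congrArg Subtype.val (congrArg Subtype.val hab)
            congr 1
            exact Subtype.ext (Subtype.ext h5)
        rwa [Finite.card_option] at this
      have h3 : Nat.card {v : A // v ∈ V ∧ v ≠ 0} + 1 = Nat.card V := by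
        have e : {v : A // v ∈ V ∧ v ≠ 0} ≃ {v : V // v ≠ 0} :=
          { toFun := fun v => ⟨⟨v.1, v.2.1⟩, fun h => v.2.2 (congrArg Subtype.val h)⟩
            invFun := fun v => ⟨v.1.1, v.1.2, fun h => v.2 (Subtype.ext h)⟩
            left_inv := fun _ => rfl
            right_inv := fun _ => rfl }
        rw [Nat.card_congr e, ← Finite.card_option]
        exact Nat.card_congr (Equiv.optionSubtypeNe (0 : V))
      omega)
  rcases hmain with ⟨⟨v, hvV, hv0⟩, hv⟩ | ⟨hall, -⟩
  · exact Or.inl ⟨annOf S v, infIrred_annOf V hVr hF0 hF1 hvV hv0, hv⟩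
  · right
    let J : NonUnitalSubalgebra S A :=
      { carrier := {x | x ∈ I}
        add_mem' := fun {a b} ha hb => I.add_mem ha hb
        zero_mem' := I.zero_mem
        mul_mem' := fun {a b} ha hb => hIl a b hb
        smul_mem' := fun s a ha => I.smul_mem s ha }
    have hJ : ∀ x, x ∈ J ↔ x ∈ I := fun x => Iff.rfl
    have hNJ : ¬ N ≤ J := by
      intro h
      obtain ⟨n, hn, hvn⟩ := hvN v0 hv0V hv00
      have h1 := hNI n hn (h hn)
      rw [h1, mul_zero] at hvn
      exact hvn rfl
    have haddJ : ∀ H ≤ J, addN H ⊓ J = H := by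
      intro H hH
      ext x
      rw [hinj H (fun h hh => hH hh)]
      exact Iff.rfl
    have hdich : ∀ K, K ≤ J ∨ ∃ H0 ≤ J, K = addN H0 := by
      intro K
      rcases hall K with h | ⟨H0, h, rfl⟩
      · exact Or.inl h
      · exact Or.inr ⟨H0, h, rfl⟩
    refine ⟨J, N, ?_, hNJ, ?_, ?_⟩
    · intro K
      rcases hdich K with h | ⟨H0, _, rfl⟩
      · exact Or.inl h
      · exact Or.inr (hNadd H0)
    · intro H hH
      exact ⟨addN H, fun h => hNJ ((hNadd H).trans h), haddJ H hH⟩
    · intro K K' hK hK' h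
      rcases hdich K with h1 | ⟨H0, h1, rfl⟩
      · exact absurd h1 hK
      · rcases hdich K' with h2 | ⟨H0', h2, rfl⟩
        · exact absurd h2 hK'
        · rw [haddJ H0 h1, haddJ H0' h2] at h
          rw [h]

end

/-- All finite associative algebras. -/
theorem good_assoc {S : Type u} [CommRing S] : ∀ (n : ℕ) (A : Type v) [NonUnitalRing A]
    [Module S A] [IsScalarTower S A A] [SMulCommClass S A A] [Finite A],
    Nat.card A = n → Good (NonUnitalSubalgebra S A) := by
  intro n
  induction n using Nat.strong_induction_on with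
  | _ n ih =>
    intro A _ _ _ _ _ hn
    rcases subsingleton_or_nontrivial A with h | h
    · exact good_of_subsingleton
    · rcases assoc_step (S := S) (A := A) with h | ⟨M, P, g3, g4, g5, g6⟩
      · exact Or.inr h
      · apply good_of_split g3 g4 g5 g6
        have hMtop : M ≠ ⊤ := by
          rintro rfl
          exact g4 le_top
        exact ih (Nat.card M) (hn ▸ card_lt_of_ne_top hMtop) M rfl

end Pool.Agent.H177.UCS
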