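import Mathlib
import Pool.Agent.H177.UCS.Basic

set_option autoImplicit false

/-!
# From lattices to separating union-closed families
-/

namespace Pool.Agent.H177.UCS

open Finset Pool.Agent.H177.UC

/-- the members missing a suitable element lie below a meet-irreducible element -/
theorem missing_le {L : Type*} [Lattice L] [Finite L] {M : L} (hM : InfIrred M)
    {α : Type*} [DecidableEq α]
    (F : Finset (Finset α)) (hU : ∀ X ∈ F, ∀ Y ∈ F, X ∪ Y ∈ F) (e : {X // X ∈ F} ≃o L) :
    ∃ x ∈ F.sup id, (F.filter fun X => x ∉ X).card ≤ Nat.card {H : L // H ≤ M} := by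
  classical
  obtain ⟨c, hMc, hc⟩ := exists_cover hM
  have h1 : (e.symm M).1 ⊂ (e.symm c).1 := by
    have : e.symm M < e.symm c := e.symm.lt_iff_lt.mpr hMc
    exact this
  obtain ⟨i, hi, hiM⟩ := Finset.exists_of_ssubset h1
  refine ⟨i, ?_, ?_⟩
  · rw [Finset.mem_sup]
    exact ⟨_, (e.symm c).2, hi⟩
  have key : ∀ X : {X // X ∈ F}, i ∉ X.1 → e X ≤ M := by
    intro X hX
    by_contra hcon
    have hU' := hU X.1 X.2 (e.symm M).1 (e.symm M).2
    have h2 : M ≤ e ⟨_, hU'⟩ := by
      rw [← e.symm_apply_le]
      exact (Finset.subset_union_right : (e.symm M).1 ⊆ X.1 ∪ (e.symm M).1)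
    have h3 : e X ≤ e ⟨_, hU'⟩ := by
      rw [e.le_iff_le]
      exact (Finset.subset_union_left : X.1 ⊆ X.1 ∪ (e.symm M).1)
    have h4 : M < e ⟨_, hU'⟩ := by
      rcases h2.eq_or_lt with h | h
      · exact absurd (h ▸ h3) hcon
      · exact h
    have h5 := hc _ h4
    rw [← e.symm_apply_le] at h5
    have h6 : (e.symm c).1 ⊆ X.1 ∪ (e.symm M).1 := h5
    have := h6 hi
    rw [Finset.mem_union] at this
    tauto
  have := Fintype.ofFinite L
  rw [Nat.card_eq_fintype_card, Fintype.card_subtype]
  apply Finset.card_le_card_of_injOn
    (fun X => if h : X ∈ F then e ⟨X, h⟩ else M)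
  · intro X hX
    simp only [Finset.coe_filter, Set.mem_setOf_eq] at hX
    simp only [Finset.coe_filter, Finset.mem_univ, true_and, Set.mem_setOf_eq, dif_pos hX.1]
    exact key ⟨X, hX.1⟩ hX.2
  · intro X hX Y hY hXY
    simp only [Finset.coe_filter, Set.mem_setOf_eq] at hX hY
    simp only [dif_pos hX.1, dif_pos hY.1, EmbeddingLike.apply_eq_iff_eq, Subtype.mk.injEq] at hXY
    exact hXY

theorem card_eq {L : Type*} [LE L] {α : Type*} [DecidableEq α]
    (F : Finset (Finset α)) (e : {X // X ∈ F} ≃o L) : F.card = Nat.card L := by
  rw [← Nat.card_congr e.toEquiv, Nat.card_eq_fintype_card, Fintype.card_coe]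

/-- The Boolean case. -/
theorem boolean_case {n : ℕ} {α : Type*} [DecidableEq α]
    (F : Finset (Finset α)) (hU : ∀ X ∈ F, ∀ Y ∈ F, X ∪ Y ∈ F)
    (hsep : ∀ x ∈ F.sup id, ∀ y ∈ F.sup id, x ≠ y → ∃ S ∈ F, (x ∈ S ∧ y ∉ S) ∨ (y ∈ S ∧ x ∉ S))
    (hpow : F ≠ (F.sup id).powerset) (e : {X // X ∈ F} ≃o (Fin n → Bool)) :
    ∃ x ∈ F.sup id, F.card < 2 * (F.filter fun X => x ∈ X).card := by
  classical
  by_contra hcon
  push Not at hcon
  have hFsub : F ⊆ (F.sup id).powerset := by
    intro X hX
    rw [Finset.mem_powerset]
    exact Finset.le_sup (f := id) hX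
  have hcard : F.card = 2 ^ n := by
    rw [card_eq F e]
    simp
  have hlt : n < (F.sup id).card := by
    have h1 : F.card < ((F.sup id).powerset).card :=
      Finset.card_lt_card (Finset.ssubset_iff_subset_ne.mpr ⟨hFsub, hpow⟩)
    rw [Finset.card_powerset, hcard] at h1
    exact (Nat.pow_lt_pow_iff_right (by norm_num)).mp h1
  have hF : 0 < F.card := by rw [hcard]; positivity
  -- the members missing `x`
  have hsplit : ∀ x, (F.filter fun X => x ∈ X).card + (F.filter fun X => x ∉ X).card = F.card :=
    fun x => Finset.card_filter_add_card_filter_not _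
  -- an index for every element
  have hex : ∀ x : {x // x ∈ F.sup id}, ∃ i : Fin n, ∀ X (hX : X ∈ F), x.1 ∉ X →
      e ⟨X, hX⟩ i = false := by
    rintro ⟨x, hx⟩
    have h1 := hcon x hx
    have h2 := hsplit x
    have h3 : (F.filter fun X => x ∉ X).Nonempty := by
      rw [← Finset.card_pos]
      omega
    have hsupmem : (F.filter fun X => x ∉ X).sup id ∈ F := by
      obtain ⟨X0, hX0⟩ := h3
      have : ∀ (s : Finset (Finset α)), s ⊆ F → s.Nonempty → s.sup id ∈ F := by
        intro s
        induction s using Finset.induction_on with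
        | empty => intro _ h; exact absurd h (by simp)
        | insert a s ha ih =>
          intro hsF _
          rw [Finset.sup_insert]
          by_cases hs : s.Nonempty
          · exact hU _ (hsF (Finset.mem_insert_self _ _)) _
              (ih (fun y hy => hsF (Finset.mem_insert_of_mem hy)) hs)
          · rw [Finset.not_nonempty_iff_eq_empty] at hs
            subst hs
            simp only [id_eq, Finset.sup_empty, sup_bot_eq]
            exact hsF (Finset.mem_insert_self _ _)
      exact this _ (Finset.filter_subset _ _) ⟨X0, hX0⟩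
    have hxs : x ∉ (F.filter fun X => x ∉ X).sup id := by
      rw [Finset.mem_sup]
      rintro ⟨X, hX, hxX⟩
      rw [Finset.mem_filter] at hX
      exact hX.2 hxX
    obtain ⟨i, hi⟩ : ∃ i, e ⟨_, hsupmem⟩ i = false := by
      by_contra hne
      push Not at hne
      obtain ⟨S, hS, hxS⟩ := Finset.mem_sup.mp hx
      have h5 : e ⟨S, hS⟩ ≤ e ⟨_, hsupmem⟩ := by
        intro i
        have := hne i
        rw [Bool.eq_true_of_not_eq_false this]
        exact Bool.le_true _
      rw [e.le_iff_le] at h5
      have h6 : S ⊆ (F.filter fun X => x ∉ X).sup id := h5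
      exact hxs (h6 hxS)
    refine ⟨i, fun X hX hxX => ?_⟩
    have h7 : (⟨X, hX⟩ : {X // X ∈ F}) ≤ ⟨_, hsupmem⟩ := by
      change X ⊆ (F.filter fun X => x ∉ X).sup id
      exact Finset.le_sup (f := id) (Finset.mem_filter.mpr ⟨hX, hxX⟩)
    have h8 := e.le_iff_le.mpr h7 i
    rw [hi] at h8
    exact Bool.eq_false_of_le_false h8
  choose i hi using hex
  -- two elements with the same index
  obtain ⟨x, y, hxy, hixy⟩ : ∃ x y, x ≠ y ∧ i x = i y := by
    apply Fintype.exists_ne_map_eq_of_card_lt i
    rw [Fintype.card_fin, Fintype.card_coe]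
    exact hlt
  -- half of the members have a zero there
  have hhalf : ∀ j : Fin n,
      2 * (F.filter fun X => ∃ h : X ∈ F, e ⟨X, h⟩ j = false).card ≤ F.card := by
    intro j
    have h1 : (F.filter fun X => ∃ h : X ∈ F, e ⟨X, h⟩ j = false).card ≤
        (F.filter fun X => ¬ ∃ h : X ∈ F, e ⟨X, h⟩ j = false).card := by
      apply Finset.card_le_card_of_injOn
        (fun X => if h : X ∈ F then (e.symm (Function.update (e ⟨X, h⟩) j true)).1 else X)
      · intro X hX
        simp only [Finset.coe_filter, Set.mem_setOf_eq] at hX ⊢
        rw [dif_pos hX.1]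
        refine ⟨(e.symm _).2, ?_⟩
        rintro ⟨h, h'⟩
        rw [Subtype.coe_eta, e.apply_symm_apply, Function.update_self] at h'
        exact absurd h' (by decide)
      · intro X hX Y hY hXY
        simp only [Finset.coe_filter, Set.mem_setOf_eq] at hX hY
        simp only [dif_pos hX.1, dif_pos hY.1] at hXY
        have h2 := e.symm.injective (Subtype.ext hXY)
        obtain ⟨hX1, hX1', hX2⟩ := hX
        obtain ⟨hY1, hY1', hY2⟩ := hY
        have h3 : e ⟨X, hX1⟩ = e ⟨Y, hY1⟩ := by
          funext l
          by_cases hl : l = j
          · rw [hl]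
            exact hX2.trans hY2.symm
          · have := congrFun h2 l
            rwa [Function.update_of_ne hl, Function.update_of_ne hl] at this
        exact congrArg Subtype.val (e.injective h3)
    have h2 : (F.filter fun X => ∃ h : X ∈ F, e ⟨X, h⟩ j = false).card +
        (F.filter fun X => ¬ ∃ h : X ∈ F, e ⟨X, h⟩ j = false).card = F.card :=
      Finset.card_filter_add_card_filter_not _
    omega
  have hsub : ∀ z : {x // x ∈ F.sup id}, (F.filter fun X => z.1 ∉ X) =
      F.filter fun X => ∃ h : X ∈ F, e ⟨X, h⟩ (i z) = false := by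
    intro z
    apply Finset.eq_of_subset_of_card_le
    · intro X hX
      rw [Finset.mem_filter] at hX ⊢
      exact ⟨hX.1, hX.1, hi z X hX.1 hX.2⟩
    · have h1 := hcon z.1 z.2
      have h2 := hsplit z.1
      have h3 := hhalf (i z)
      omega
  have hmiss : ∀ X ∈ F, (x.1 ∈ X ↔ y.1 ∈ X) := by
    intro X hX
    have h1 : X ∈ (F.filter fun X => x.1 ∉ X) ↔ X ∈ (F.filter fun X => y.1 ∉ X) := by
      rw [hsub x, hsub y, hixy]
    rw [Finset.mem_filter, Finset.mem_filter] at h1
    tauto
  obtain ⟨S, hS, hS'⟩ := hsep x.1 x.2 y.1 y.2 (fun h => hxy (Subtype.ext h))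
  have := hmiss S hS
  tauto

/-- Poonen's strict inequality for the separating families with the lattice `L`. -/
theorem poonen_of_good {L : Type*} [Lattice L] [Finite L] (hL : Good L) {α : Type*}
    [DecidableEq α]
    (F : Finset (Finset α)) (hne : F.Nonempty) (hU : ∀ X ∈ F, ∀ Y ∈ F, X ∪ Y ∈ F)
    (hsep : ∀ x ∈ F.sup id, ∀ y ∈ F.sup id, x ≠ y → ∃ S ∈ F, (x ∈ S ∧ y ∉ S) ∨ (y ∈ S ∧ x ∉ S))
    (hpow : F ≠ (F.sup id).powerset)
    (h : Nonempty ({X // X ∈ F} ≃o L) ∨ Nonempty ({X // X ∈ insert ∅ F} ≃o L)) :
    ∃ x ∈ F.sup id, F.card < 2 * (F.filter fun X => x ∈ X).card := by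
  classical
  have hmain : ∀ e : {X // X ∈ F} ≃o L,
      ∃ x ∈ F.sup id, F.card < 2 * (F.filter fun X => x ∈ X).card := by
    intro e
    rcases hL with ⟨n, ⟨f⟩⟩ | ⟨M, hM, hMc⟩
    · exact boolean_case F hU hsep hpow (e.trans f)
    · obtain ⟨x, hx, hx'⟩ := missing_le hM F hU e
      refine ⟨x, hx, ?_⟩
      have h1 := card_eq F e
      have h2 : (F.filter fun X => x ∈ X).card + (F.filter fun X => ¬ x ∈ X).card = F.card :=
        Finset.card_filter_add_card_filter_not _
      omega
  rcases h with ⟨⟨e⟩⟩ | ⟨⟨e⟩⟩
  · exact hmain e
  · by_cases hemp : ∅ ∈ F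
    · have : insert ∅ F = F := Finset.insert_eq_self.mpr hemp
      rw [this] at e
      exact hmain e
    · have hU' : ∀ X ∈ insert ∅ F, ∀ Y ∈ insert ∅ F, X ∪ Y ∈ insert ∅ F := by
        intro X hX Y hY
        rw [Finset.mem_insert] at hX hY ⊢
        rcases hX with rfl | hX
        · rw [Finset.empty_union]
          exact hY
        · rcases hY with rfl | hY
          · rw [Finset.union_empty]
            exact Or.inr hX
          · exact Or.inr (hU _ hX _ hY)
      have hsup : (insert ∅ F).sup id = F.sup id := by
        rw [Finset.sup_insert]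
        simp
      have hcardL : F.card + 1 = Nat.card L := by
        rw [← card_eq _ e, Finset.card_insert_of_notMem hemp]
      have hweak : ∃ M : L, InfIrred M ∧ 2 * Nat.card {H : L // H ≤ M} ≤ Nat.card L := by
        rcases hL with ⟨n, ⟨f⟩⟩ | ⟨M, hM, hMc⟩
        · have hn : n ≠ 0 := by
            rintro rfl
            have h1 : Nat.card L = 1 := by
              rw [Nat.card_congr f.toEquiv]
              simp
            have := hne.card_pos
            omega
          obtain ⟨m, rfl⟩ := Nat.exists_eq_succ_of_ne_zero hn
          -- a coatom of the Boolean lattice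
          let c : Fin (m + 1) → Bool := fun j => decide (j ≠ 0)
          have hcle : ∀ g : Fin (m + 1) → Bool, g ≤ c ↔ g 0 = false := by
            intro g
            constructor
            · intro h
              have := h 0
              simp only [c] at this
              exact Bool.eq_false_of_le_false (by simpa using this)
            · intro h j
              by_cases hj : j = 0
              · rw [hj, h]
                exact Bool.false_le _
              · simp only [c]
                rw [decide_eq_true hj]
                exact Bool.le_true _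
          refine ⟨f.symm c, ⟨?_, ?_⟩, ?_⟩
          · intro hmax
            have h1 : f.symm c ≤ f.symm (fun _ => true) := by
              rw [f.symm.le_iff_le]
              intro j
              exact Bool.le_true _
            have h2 := hmax h1
            rw [f.symm.le_iff_le, hcle] at h2
            exact absurd h2 (by decide)
          · intro a b hab
            have h1 : f a ⊓ f b = c := by
              rw [← map_inf, hab, f.apply_symm_apply]
            have h2 : c ≤ f a := h1 ▸ inf_le_left
            have h3 : c ≤ f b := h1 ▸ inf_le_right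
            have h4 : f a 0 = false ∨ f b 0 = false := by
              have := congrFun h1 0
              simp only [Pi.inf_apply, c] at this
              cases ha : f a 0 <;> cases hb : f b 0 <;> simp_all
            rcases h4 with h4 | h4
            · left
              rw [← (hcle _)] at h4
              rw [le_antisymm h2 h4, f.symm_apply_apply]
            · right
              rw [← (hcle _)] at h4
              rw [le_antisymm h3 h4, f.symm_apply_apply]
          · have e1 : Nat.card {H : L // H ≤ f.symm c} ≤ Nat.card {g : Fin (m + 1) → Bool // g 0 = false} := by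
              apply Nat.card_le_card_of_injective
                (fun H => (⟨f H.1, by
                  rw [← hcle, ← f.le_symm_apply]
                  exact H.2⟩ : {g : Fin (m + 1) → Bool // g 0 = false}))
              intro a b hab
              exact Subtype.ext (f.injective (congrArg Subtype.val hab))
            have e2 : Nat.card {g : Fin (m + 1) → Bool // g 0 = false} ≤
                Nat.card {g : Fin (m + 1) → Bool // ¬ g 0 = false} := by
              apply Nat.card_le_card_of_injective
                (fun g => (⟨Function.update g.1 0 true, by simp⟩ :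
                  {g : Fin (m + 1) → Bool // ¬ g 0 = false}))
              intro a b hab
              have h1 : Function.update a.1 0 true = Function.update b.1 0 true :=
                congrArg Subtype.val hab
              apply Subtype.ext
              funext l
              by_cases hl : l = 0
              · rw [hl, a.2, b.2]
              · have := congrFun h1 l
                rwa [Function.update_of_ne hl, Function.update_of_ne hl] at this
            have e3 : Nat.card {g : Fin (m + 1) → Bool // g 0 = false} +
                Nat.card {g : Fin (m + 1) → Bool // ¬ g 0 = false} =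
                Nat.card (Fin (m + 1) → Bool) := by
              simp only [Nat.card_eq_fintype_card, Fintype.card_subtype]
              rw [Finset.card_filter_add_card_filter_not, Finset.card_univ]
            have e4 : Nat.card L = Nat.card (Fin (m + 1) → Bool) := Nat.card_congr f.toEquiv
            omega
        · exact ⟨M, hM, hMc.le⟩
      obtain ⟨M, hM, hMc⟩ := hweak
      obtain ⟨x, hx, hx'⟩ := missing_le hM (insert ∅ F) hU' e
      rw [hsup] at hx
      refine ⟨x, hx, ?_⟩
      have h1 : ((insert ∅ F).filter fun X => x ∉ X).card =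
          (F.filter fun X => x ∉ X).card + 1 := by
        rw [Finset.filter_insert, if_pos (Finset.notMem_empty x),
          Finset.card_insert_of_notMem]
        intro h
        exact hemp (Finset.mem_of_mem_filter _ h)
      have h2 : (F.filter fun X => x ∈ X).card + (F.filter fun X => ¬ x ∈ X).card = F.card :=
        Finset.card_filter_add_card_filter_not _
      omega

end Pool.Agent.H177.UCS
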