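import Mathlib
import Pool.Agent.H177.UCS.Basic

set_option autoImplicit false

/-!
# Subgroups of finite groups with a nontrivial abelian normal subgroup
-/

namespace Pool.Agent.H177.UCS

open Finset Pool.Agent.H177.UC

universe u v w

/-- `V` is a vector space over `ZMod p` embedded in `G` as a normal subgroup. -/
theorem group_vector {G : Type u} [Group G] [Finite G] (p : ℕ) [hp : Fact p.Prime]
    {V : Type v} [AddCommGroup V] [Module (ZMod p) V] [Finite V] [Nontrivial V]
    (ι : Multiplicative V →* G) (hι : Function.Injective ι) (hN : ι.range.Normal) :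
    Strict (Subgroup G) ∨ ∃ M : Subgroup G,
      (∀ v, ι v ∈ M → v = 1) ∧ (∀ K, K ≤ M ∨ ι.range ≤ K) ∧ ¬ ι.range ≤ M ∧
      (∀ H ≤ M, ∃ K, ¬ K ≤ M ∧ K ⊓ M = H) ∧
      (∀ K K', ¬ K ≤ M → ¬ K' ≤ M → K ⊓ M = K' ⊓ M → K = K') ∧
      (∃ v : V, ∀ w : V, ∃ c : ZMod p, w = c • v) := by
  classical
  obtain ⟨j, hj⟩ : ∃ j : V → G, ∀ v, j v = ι (Multiplicative.ofAdd v) := ⟨_, fun _ => rfl⟩
  have j_add : ∀ v w, j (v + w) = j v * j w := by
    intro v w
    rw [hj, hj, hj, ofAdd_add, map_mul]
  have j_zero : j 0 = 1 := by rw [hj, ofAdd_zero, map_one]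
  have j_neg : ∀ v, j (-v) = (j v)⁻¹ := by
    intro v
    rw [hj, hj, ofAdd_neg, map_inv]
  have j_inj : Function.Injective j := by
    intro v w h
    rw [hj, hj] at h
    exact Multiplicative.ofAdd.injective (hι h)
  have j_smul : ∀ (c : ZMod p) v, j (c • v) = (j v) ^ c.val := by
    intro c v
    have : c • v = c.val • v := by
      rw [← Nat.cast_smul_eq_nsmul (ZMod p), ZMod.natCast_zmod_val]
    rw [this, hj, hj, ofAdd_nsmul, map_pow]
  have j_range : ∀ g, g ∈ ι.range ↔ ∃ v, j v = g := by
    intro g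
    constructor
    · rintro ⟨v, rfl⟩
      exact ⟨Multiplicative.toAdd v, by rw [hj]; rfl⟩
    · rintro ⟨v, rfl⟩
      exact ⟨Multiplicative.ofAdd v, (hj v).symm⟩
  have j_conj : ∀ g v, ∃ w, j w = g * j v * g⁻¹ := by
    intro g v
    rw [← j_range]
    exact hN.conj_mem _ ((j_range _).mpr ⟨v, rfl⟩) g
  have j_comm : ∀ v w, j v * j w = j w * j v := by
    intro v w
    rw [← j_add, add_comm, j_add]
  have j_pow : ∀ v, (j v) ^ p = 1 := by
    intro v
    have h1 : (p : ZMod p) • v = p • v := Nat.cast_smul_eq_nsmul (ZMod p) p v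
    rw [ZMod.natCast_self, zero_smul] at h1
    rw [hj, ← map_pow, ← ofAdd_nsmul, ← h1, ofAdd_zero, map_one]
  let t : Subgroup G → Submodule (ZMod p) V := fun H =>
    { carrier := {v | j v ∈ H}
      add_mem' := fun {a b} ha hb => by
        change j (a + b) ∈ H
        rw [j_add]
        exact H.mul_mem ha hb
      zero_mem' := by
        change j 0 ∈ H
        rw [j_zero]
        exact H.one_mem
      smul_mem' := fun c v hv => by
        change j (c • v) ∈ H
        rw [j_smul]
        exact H.pow_mem hv _ }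
  have ht : ∀ (H : Subgroup G) (v : V), v ∈ t H ↔ j v ∈ H := fun H v => Iff.rfl
  let τ : Subgroup G → Set (V →ₗ[ZMod p] V) := fun H =>
    {T | ∃ h ∈ H, ∀ v, j (T v) = h * j v * h⁻¹}
  have hconj : ∀ h : G, ∃ T : V →ₗ[ZMod p] V, ∀ v, j (T v) = h * j v * h⁻¹ := by
    intro h
    choose f hf using j_conj h
    refine ⟨{ toFun := f, map_add' := ?_, map_smul' := ?_ }, hf⟩
    · intro a b
      apply j_inj
      rw [hf, j_add, j_add, hf, hf]
      group
    · intro c a
      apply j_inj
      rw [hf, j_smul, RingHom.id_apply, j_smul, hf, conj_pow]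
  have hmain := strict_or_split (k := ZMod p) (V := V) t ?_ τ ι.range ?_ ?_ ?_ ?_ ?_ ?_ ?_ ?_
  · rcases hmain with h | ⟨M, h1, h2⟩
    · exact Or.inl h
    · right
      refine ⟨M, ?_, h2⟩
      intro v hv
      have h3 : Multiplicative.toAdd v ∈ t M := by
        rw [ht, hj]
        exact hv
      rw [h1, Submodule.mem_bot] at h3
      exact h3
  · intro H K hHK v hv
    exact hHK hv
  · intro H hH x hx
    obtain ⟨v, rfl⟩ := (j_range x).mp hx
    have : v ∈ t H := by rw [hH]; trivial
    exact this
  · rw [eq_top_iff]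
    intro v _
    exact (j_range _).mpr ⟨v, rfl⟩
  · intro φ _
    let M : Subgroup G :=
      { carrier := {g | ∃ v : V, φ v = 0 ∧ j v = g}
        mul_mem' := by
          rintro a b ⟨v, hv, rfl⟩ ⟨w, hw, rfl⟩
          exact ⟨v + w, by rw [map_add, hv, hw, add_zero], j_add v w⟩
        one_mem' := ⟨0, map_zero _, j_zero⟩
        inv_mem' := by
          rintro a ⟨v, hv, rfl⟩
          exact ⟨-v, by rw [map_neg, hv, neg_zero], j_neg v⟩ }
    refine ⟨M, ?_⟩
    ext v
    constructor
    · rintro ⟨w, hw, hwv⟩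
      rw [LinearMap.mem_ker, ← j_inj hwv]
      exact hw
    · intro hv
      exact ⟨v, hv, rfl⟩
  · intro H M hHM T hT v hv
    obtain ⟨h, hh, hTh⟩ := hT
    rw [ht] at hv ⊢
    rw [hTh]
    exact M.mul_mem (M.mul_mem (hHM hh) hv) (M.inv_mem (hHM hh))
  · intro H x hx
    have hnorm : ∀ h ∈ H, ∃ n : ℕ, h * j x * h⁻¹ = j x ^ n := by
      intro h hh
      obtain ⟨T, hT⟩ := hconj h
      obtain ⟨c, hc⟩ := hx T ⟨h, hh, hT⟩
      refine ⟨c.val, ?_⟩
      rw [← hT, hc, j_smul]
    have hnorm' : ∀ h ∈ H, ∀ a ∈ Subgroup.zpowers (j x), h * a * h⁻¹ ∈ Subgroup.zpowers (j x) := by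
      rintro h hh a ⟨i, rfl⟩
      obtain ⟨n, hn⟩ := hnorm h hh
      simp only
      rw [← conj_zpow, hn]
      exact ⟨(n : ℤ) * i, by simp only; rw [zpow_mul, zpow_natCast]⟩
    let H' : Subgroup G :=
      { carrier := {y | ∃ h ∈ H, ∃ a ∈ Subgroup.zpowers (j x), y = h * a}
        mul_mem' := by
          rintro y z ⟨h, hh, a, ha, rfl⟩ ⟨h', hh', a', ha', rfl⟩
          refine ⟨h * h', H.mul_mem hh hh', h'⁻¹ * a * h'⁻¹⁻¹ * a',
            Subgroup.mul_mem _ (hnorm' _ (H.inv_mem hh') a ha) ha', by group⟩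
        one_mem' := ⟨1, H.one_mem, 1, Subgroup.one_mem _, by group⟩
        inv_mem' := by
          rintro y ⟨h, hh, a, ha, rfl⟩
          exact ⟨h⁻¹, H.inv_mem hh, h * a⁻¹ * h⁻¹, hnorm' h hh _ (Subgroup.inv_mem _ ha),
            by group⟩ }
    have hmem : ∀ y, y ∈ H' ↔ ∃ h ∈ H, ∃ a ∈ Subgroup.zpowers (j x), y = h * a := fun y => Iff.rfl
    have hza : ∀ a ∈ Subgroup.zpowers (j x), ∃ w, j w = a := by
      intro a ha
      rw [← j_range]
      exact (Subgroup.zpowers_le.mpr ((j_range _).mpr ⟨x, rfl⟩)) ha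
    refine ⟨H', ?_, ?_, ?_⟩
    · ext T
      constructor
      · rintro ⟨y, hy, hTy⟩
        obtain ⟨h, hh, a, ha, rfl⟩ := (hmem y).mp hy
        refine ⟨h, hh, fun v => ?_⟩
        rw [hTy v]
        obtain ⟨w, rfl⟩ := hza a ha
        have h2 : j w * j v * (j w)⁻¹ = j v := by
          rw [j_comm w v]; group
        calc h * j w * j v * (h * j w)⁻¹
            = h * (j w * j v * (j w)⁻¹) * h⁻¹ := by group
          _ = h * j v * h⁻¹ := by rw [h2]
      · rintro ⟨h, hh, hTh⟩
        exact ⟨h, (hmem h).mpr ⟨h, hh, 1, Subgroup.one_mem _, by group⟩, hTh⟩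
    · rw [ht, hmem]
      exact ⟨1, H.one_mem, j x, Subgroup.mem_zpowers _, by group⟩
    · intro M hHM hxM
      rw [ht] at hxM
      apply le_antisymm
      · rintro y ⟨hy1, hy2⟩
        obtain ⟨h, hh, a, ha, rfl⟩ := (hmem _).mp hy1
        have haM : a ∈ M := by
          have := M.mul_mem (M.inv_mem (hHM hh)) hy2
          rwa [inv_mul_cancel_left] at this
        have ha1 : a = 1 := by
          by_contra hane
          obtain ⟨i, hi⟩ := ha
          simp only at hi
          have hi' : ¬ (p : ℤ) ∣ i := by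
            rintro ⟨c, rfl⟩
            apply hane
            rw [← hi, zpow_mul, zpow_natCast, j_pow, one_zpow]
          have hcop : IsCoprime (p : ℤ) i :=
            (Prime.coprime_iff_not_dvd (Nat.prime_iff_prime_int.mp hp.out)).mpr hi'
          obtain ⟨r, s, hrs⟩ := hcop
          apply hxM
          have : j x = a ^ s := by
            have h1 : (j x) ^ (r * (p : ℤ) + s * i) = j x := by rw [hrs, zpow_one]
            rw [zpow_add, mul_comm r, mul_comm s, zpow_mul, zpow_mul, zpow_natCast, j_pow, one_zpow,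
              one_mul, hi] at h1
            exact h1.symm
          rw [this]
          exact M.zpow_mem haM s
        rw [ha1, mul_one]
        exact hh
      · intro y hy
        exact ⟨(hmem y).mpr ⟨y, hy, 1, Subgroup.one_mem _, by group⟩, hHM hy⟩
  · intro K M
    rfl
  · rw [eq_bot_iff]
    intro v hv
    rw [ht, Subgroup.mem_bot] at hv
    rw [Submodule.mem_bot]
    apply j_inj
    rw [hv, j_zero]
  · rintro T ⟨h, hh, hT⟩ x
    rw [Subgroup.mem_bot] at hh
    subst hh
    refine ⟨1, ?_⟩
    rw [one_smul]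
    apply j_inj
    rw [hT]
    group

/-- An elementary abelian normal subgroup: strict inequality unless it is a central subgroup of
prime order and of coprime index. -/
theorem group_elementary_strict {G : Type u} [Group G] [Finite G] (p : ℕ) [hp : Fact p.Prime]
    (N : Subgroup G) (hNn : N.Normal) (hcomm : ∀ x ∈ N, ∀ y ∈ N, x * y = y * x)
    (hexp : ∀ x ∈ N, x ^ p = 1) (hne : N ≠ ⊥) :
    Strict (Subgroup G) ∨ (N ≤ Subgroup.center G ∧ Nat.card N = p ∧ ¬ p ∣ N.index) := by
  let iN : CommGroup N :=
    { (inferInstance : Group N) with mul_comm := fun a b => Subtype.ext (hcomm a a.2 b b.2) }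
  let iM : Module (ZMod p) (Additive N) := AddCommGroup.zmodModule (n := p) (by
    intro x
    apply Additive.toMul.injective
    apply Subtype.ext
    exact hexp _ (Additive.toMul x).2)
  have : Nontrivial (Additive N) := by
    have : Nontrivial N := (Subgroup.nontrivial_iff_ne_bot N).mpr hne
    infer_instance
  let ι : Multiplicative (Additive N) →* G :=
    { toFun := fun v => ((Additive.toMul (Multiplicative.toAdd v) : N) : G)
      map_one' := rfl
      map_mul' := fun _ _ => rfl }
  have hrange : ι.range = N := by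
    ext x
    constructor
    · rintro ⟨v, rfl⟩
      exact (Additive.toMul (Multiplicative.toAdd v) : N).2
    · intro hx
      exact ⟨Multiplicative.ofAdd (Additive.ofMul ⟨x, hx⟩), rfl⟩
  have hmain := group_vector p (V := Additive N) ι (by
    intro a b hab
    exact Subtype.ext hab) (by rw [hrange]; exact hNn)
  rw [hrange] at hmain
  rcases hmain with h | ⟨M, h1, h2, h3, h4, h5, ⟨v, hv⟩⟩
  · exact Or.inl h
  right
  -- the order of `N`
  have hcard : Nat.card N = p := by
    have hle : Nat.card (Additive N) ≤ Nat.card (ZMod p) := by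
      apply Nat.card_le_card_of_surjective (fun c : ZMod p => c • v)
      intro w
      obtain ⟨c, hc⟩ := hv w
      exact ⟨c, hc.symm⟩
    rw [Nat.card_zmod] at hle
    have hle' : Nat.card N ≤ p := hle
    have hpg : IsPGroup p N := by
      intro x
      exact ⟨1, by rw [pow_one]; exact Subtype.ext (hexp x x.2)⟩
    obtain ⟨n, hn⟩ := IsPGroup.iff_card.mp hpg
    have hn0 : n ≠ 0 := by
      rintro rfl
      rw [pow_zero] at hn
      exact hne (Subgroup.card_eq_one.mp hn)
    have h6 : p ≤ p ^ n := Nat.le_self_pow hn0 p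
    omega
  have hMN : ∀ x ∈ N, x ∈ M → x = 1 := by
    intro x hx hxM
    have := h1 (Multiplicative.ofAdd (Additive.ofMul ⟨x, hx⟩)) hxM
    have h7 : (⟨x, hx⟩ : N) = 1 := this
    exact congrArg Subtype.val h7
  -- `M` is normal
  have hMn : M.Normal := by
    have hle : ∀ g : G, M.map (MulAut.conj g).toMonoidHom ≤ M := by
      intro g
      rcases h2 (M.map (MulAut.conj g).toMonoidHom) with h | h
      · exact h
      · exfalso
        apply h3
        intro x hx
        have h6 : g * x * g⁻¹ ∈ N := hNn.conj_mem x hx g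
        obtain ⟨y, hy, hy'⟩ := h h6
        have h7 : g * y * g⁻¹ = g * x * g⁻¹ := hy'
        have h8 : y = x := by
          have := congrArg (fun z => g⁻¹ * z * g) h7
          simpa [mul_assoc] using this
        rw [← h8]
        exact hy
    constructor
    intro x hx g
    exact hle g ⟨x, hx, rfl⟩
  have hcomm' : ∀ x ∈ M, ∀ y ∈ N, x * y = y * x := by
    intro x hx y hy
    have h6 : x * y * x⁻¹ * y⁻¹ ∈ N := N.mul_mem (hNn.conj_mem y hy x) (N.inv_mem hy)
    have h7 : x * y * x⁻¹ * y⁻¹ ∈ M := by
      have := M.mul_mem hx (hMn.conj_mem x⁻¹ (M.inv_mem hx) y)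
      have e : x * y * x⁻¹ * y⁻¹ = x * (y * x⁻¹ * y⁻¹) := by group
      rw [e]
      exact this
    have h8 := hMN _ h6 h7
    calc x * y = (x * y * x⁻¹ * y⁻¹) * (y * x) := by group
      _ = y * x := by rw [h8, one_mul]
  -- `G` is the product of `M` and `N`
  have hprod : M ⊔ N = ⊤ := by
    apply h5
    · intro h
      exact h3 (le_sup_right.trans h)
    · intro h
      exact h3 (le_top.trans h)
    · rw [inf_eq_right.mpr le_sup_left, inf_eq_right.mpr le_top]
  have hmemprod : ∀ g : G, ∃ m ∈ M, ∃ n ∈ N, m * n = g := by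
    intro g
    have : g ∈ M ⊔ N := by rw [hprod]; trivial
    rw [Subgroup.mem_sup_of_normal_right] at this
    obtain ⟨m, hm, n, hn, h⟩ := this
    exact ⟨m, hm, n, hn, h⟩
  refine ⟨?_, hcard, ?_⟩
  · intro y hy
    rw [Subgroup.mem_center_iff]
    intro g
    obtain ⟨m, hm, n, hn, rfl⟩ := hmemprod g
    rw [mul_assoc, hcomm n hn y hy, ← mul_assoc, hcomm' m hm y hy, mul_assoc]
  · intro hdvd
    have hidx : N.index = Nat.card M := by
      have hdisj : Disjoint M N := by
        rw [Subgroup.disjoint_def]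
        intro x hx hx'
        exact hMN x hx' hx
      have hc : Subgroup.IsComplement' M N := by
        apply Subgroup.isComplement'_of_disjoint_and_mul_eq_univ hdisj
        rw [Set.eq_univ_iff_forall]
        intro g
        obtain ⟨m, hm, n, hn, rfl⟩ := hmemprod g
        exact Set.mul_mem_mul hm hn
      exact hc.index_eq_card
    rw [hidx] at hdvd
    obtain ⟨y, hy⟩ := exists_prime_orderOf_dvd_card' (G := M) p hdvd
    have hNcard : p ∣ Nat.card N := by rw [hcard]
    obtain ⟨x, hx⟩ := exists_prime_orderOf_dvd_card' (G := N) p hNcard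
    have hyp : (y : G) ^ p = 1 := by
      have : y ^ p = 1 := by rw [← hy, pow_orderOf_eq_one]
      exact congrArg Subtype.val this
    have hxp : (x : G) ^ p = 1 := hexp x x.2
    have hx1 : (x : G) ≠ 1 := by
      intro h
      have : x = 1 := Subtype.ext h
      rw [this, orderOf_one] at hx
      exact hp.out.one_lt.ne hx
    have hy1 : (y : G) ≠ 1 := by
      intro h
      have : y = 1 := Subtype.ext h
      rw [this, orderOf_one] at hy
      exact hp.out.one_lt.ne hy
    have hcom : Commute (y : G) x := hcomm' y y.2 x x.2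
    have hz : ((y : G) * x) ^ p = 1 := by
      rw [hcom.mul_pow, hyp, hxp, one_mul]
    rcases h2 (Subgroup.zpowers ((y : G) * x)) with h | h
    · have h6 : (y : G) * x ∈ M := h (Subgroup.mem_zpowers _)
      have h7 : (x : G) ∈ M := by
        have := M.mul_mem (M.inv_mem y.2) h6
        rwa [inv_mul_cancel_left] at this
      exact hx1 (hMN x x.2 h7)
    · obtain ⟨i, hi⟩ := h x.2
      have hi' : (y : G) ^ i * (x : G) ^ i = x := by
        rw [← hcom.mul_zpow]
        exact hi
      have h6 : (y : G) ^ i ∈ N := by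
        have : (y : G) ^ i = x * ((x : G) ^ i)⁻¹ := by
          rw [eq_mul_inv_iff_mul_eq]
          exact hi'
        rw [this]
        exact N.mul_mem x.2 (N.inv_mem (N.zpow_mem x.2 i))
      have h7 := hMN _ h6 (M.zpow_mem y.2 i)
      -- `p` divides `i`
      have h8 : (orderOf (y : G) : ℤ) ∣ i := orderOf_dvd_iff_zpow_eq_one.mpr h7
      have h9 : orderOf (y : G) = p := by
        rw [Subgroup.orderOf_coe, hy]
      rw [h9] at h8
      obtain ⟨c, rfl⟩ := h8
      rw [zpow_mul, zpow_mul, zpow_natCast, zpow_natCast, hyp, hxp, one_zpow, one_mul] at hi'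
      exact hx1 hi'.symm

/-- An abelian normal subgroup. -/
theorem group_abelian_strict {G : Type u} [Group G] [Finite G]
    (A : Subgroup G) (hAn : A.Normal) (hAc : ∀ x ∈ A, ∀ y ∈ A, x * y = y * x) :
    Strict (Subgroup G) ∨ (A ≤ Subgroup.center G ∧ Squarefree (Nat.card A) ∧
      (Nat.card A).Coprime A.index) := by
  classical
  by_cases hst : Strict (Subgroup G)
  · exact Or.inl hst
  right
  have key : ∀ p : ℕ, p.Prime → p ∣ Nat.card A → ∃ N : Subgroup G, N ≤ A ∧
      N ≤ Subgroup.center G ∧ Nat.card N = p ∧ ¬ p ∣ N.index := by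
    intro p hp hpA
    have hpf : Fact p.Prime := ⟨hp⟩
    obtain ⟨a, ha⟩ := exists_prime_orderOf_dvd_card' (G := A) p hpA
    let N : Subgroup G :=
      { carrier := {x | x ∈ A ∧ x ^ p = 1}
        mul_mem' := by
          rintro x y ⟨hx, hx'⟩ ⟨hy, hy'⟩
          refine ⟨A.mul_mem hx hy, ?_⟩
          have : Commute x y := hAc x hx y hy
          rw [this.mul_pow, hx', hy', one_mul]
        one_mem' := ⟨A.one_mem, one_pow _⟩
        inv_mem' := by
          rintro x ⟨hx, hx'⟩
          exact ⟨A.inv_mem hx, by rw [inv_pow, hx', inv_one]⟩ }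
    have hN := group_elementary_strict p N ?_ ?_ ?_ ?_
    · exact ⟨N, fun x hx => hx.1, hN.resolve_left hst⟩
    · constructor
      rintro x ⟨hx, hx'⟩ g
      exact ⟨hAn.conj_mem x hx g, by rw [conj_pow, hx']; group⟩
    · rintro x ⟨hx, -⟩ y ⟨hy, -⟩
      exact hAc x hx y hy
    · rintro x ⟨-, hx⟩
      exact hx
    · intro h
      have haN : (a : G) ∈ N := by
        refine ⟨a.2, ?_⟩
        have : a ^ p = 1 := by rw [← ha, pow_orderOf_eq_one]
        exact congrArg Subtype.val this
      rw [h, Subgroup.mem_bot] at haN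
      have h1 : a = 1 := Subtype.ext haN
      rw [h1, orderOf_one] at ha
      exact hp.one_lt.ne ha
  have key2 : ∀ p : ℕ, p.Prime → p ∣ Nat.card A → ¬ p * p ∣ Nat.card G := by
    intro p hp hpA hpp
    obtain ⟨N, -, -, h1, h2⟩ := key p hp hpA
    rw [← N.card_mul_index, h1] at hpp
    exact h2 ((Nat.mul_dvd_mul_iff_left hp.pos).mp hpp)
  refine ⟨?_, ?_, ?_⟩
  · -- central
    by_contra hcon
    have hlt : A ⊓ Subgroup.center G ≠ A := fun h => hcon (inf_eq_left.mp h)
    have hrel : (A ⊓ Subgroup.center G).relIndex A ≠ 1 := by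
      intro h
      rw [Subgroup.relIndex_eq_one] at h
      exact hlt (le_antisymm inf_le_left h)
    obtain ⟨p, hp, hpd⟩ := Nat.exists_prime_and_dvd hrel
    have hcardA : (A ⊓ Subgroup.center G).relIndex A * Nat.card (A ⊓ Subgroup.center G : Subgroup G)
        = Nat.card A := by
      rw [← Subgroup.relIndex_bot_left (H := A), ← Subgroup.relIndex_bot_left
        (H := A ⊓ Subgroup.center G), mul_comm]
      exact Subgroup.relIndex_mul_relIndex ⊥ _ _ bot_le inf_le_left
    have hpA : p ∣ Nat.card A := by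
      rw [← hcardA]
      exact hpd.mul_right _
    obtain ⟨N, hNA, hNc, h1, -⟩ := key p hp hpA
    have hpZ : p ∣ Nat.card (A ⊓ Subgroup.center G : Subgroup G) := by
      rw [← h1]
      exact Subgroup.card_dvd_of_le (le_inf hNA hNc)
    apply key2 p hp hpA
    exact (hcardA ▸ Nat.mul_dvd_mul hpd hpZ).trans (Subgroup.card_subgroup_dvd_card A)
  · rw [Nat.squarefree_iff_prime_squarefree]
    intro p hp hpp
    exact key2 p hp ((dvd_mul_right p p).trans hpp) (hpp.trans (Subgroup.card_subgroup_dvd_card A))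
  · rw [Nat.coprime_iff_gcd_eq_one]
    by_contra hcon
    obtain ⟨p, hp, hpd⟩ := Nat.exists_prime_and_dvd hcon
    have h1 := hpd.trans (Nat.gcd_dvd_left _ _)
    have h2 := hpd.trans (Nat.gcd_dvd_right _ _)
    apply key2 p hp h1
    rw [← A.card_mul_index]
    exact Nat.mul_dvd_mul h1 h2

/-- A solvable normal subgroup. -/
theorem group_solvable_strict {G : Type u} [Group G] [Finite G] (R : Subgroup G) (hR : R.Normal)
    (hs : Group.IsSolvable R) :
    Strict (Subgroup G) ∨ (R ≤ Subgroup.center G ∧ Squarefree (Nat.card R) ∧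
      (Nat.card R).Coprime R.index) := by
  classical
  by_cases hst : Strict (Subgroup G)
  · exact Or.inl hst
  -- commutators of the subgroup commute
  by_cases hab : ∀ x ∈ R, ∀ y ∈ R, x * y = y * x
  · exact group_abelian_strict R hR hab
  exfalso
  obtain ⟨m, hm⟩ := hs.solvable
  -- the mapped derived series
  let B : ℕ → Subgroup G := fun n => (derivedSeries R n).map R.subtype
  have hBn : ∀ n, (B n).Normal := by
    intro n
    have hchar : (derivedSeries R n).Characteristic := derivedSeries_characteristic R n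
    exact ConjAct.normal_of_characteristic_of_normal
  have hBs : ∀ n, B (n + 1) = ⁅B n, B n⁆ := by
    intro n
    simp only [B, derivedSeries_succ, Subgroup.map_commutator]
  have hBm : B m = ⊥ := by
    simp only [B, hm, Subgroup.map_bot]
  have hB0 : B 0 = R := by
    simp only [B, derivedSeries_zero]
    ext x
    constructor
    · rintro ⟨y, -, rfl⟩
      exact y.2
    · intro hx
      exact ⟨⟨x, hx⟩, trivial, rfl⟩
  have habel : ∀ n, B (n + 1) = ⊥ → ∀ x ∈ B n, ∀ y ∈ B n, x * y = y * x := by
    intro n hn x hx y hy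
    rw [hBs, Subgroup.commutator_eq_bot_iff_le_centralizer] at hn
    have h3 := hn hy
    rw [Subgroup.mem_centralizer_iff] at h3
    exact h3 x hx
  -- descending induction
  have hdesc : ∀ n, B (n + 2) = ⊥ → B (n + 1) = ⊥ := by
    intro n hn
    have h1 := group_abelian_strict (B (n + 1)) (hBn _) (habel _ hn)
    obtain ⟨hc, hsq, hcop⟩ := h1.resolve_left hst
    have hle : B (n + 1) ≤ B n := by
      rw [hBs]
      exact Subgroup.commutator_le_left _ _
    have hnormal : ((B (n + 1)).subgroupOf (B n)).Normal := (hBn (n + 1)).subgroupOf _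
    have hcard : Nat.card ((B (n + 1)).subgroupOf (B n)) = Nat.card (B (n + 1)) :=
      Nat.card_congr (Subgroup.subgroupOfEquivOfLe hle).toEquiv
    have hidx : ((B (n + 1)).subgroupOf (B n)).index ∣ (B (n + 1)).index := by
      have := Subgroup.relIndex_mul_index hle
      rw [← this]
      exact dvd_mul_right _ _
    obtain ⟨C, hC⟩ := Subgroup.exists_right_complement'_of_coprime
      (N := (B (n + 1)).subgroupOf (B n)) (by
        rw [hcard]
        exact Nat.Coprime.coprime_dvd_right hidx hcop)
    have hCab : ∀ c ∈ C, ∀ d ∈ C, c * d = d * c := by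
      intro c hc' d hd'
      have h2 : c * d * c⁻¹ * d⁻¹ ∈ C :=
        C.mul_mem (C.mul_mem (C.mul_mem hc' hd') (C.inv_mem hc')) (C.inv_mem hd')
      have h3 : c * d * c⁻¹ * d⁻¹ ∈ (B (n + 1)).subgroupOf (B n) := by
        rw [Subgroup.mem_subgroupOf, hBs]
        exact Subgroup.commutator_mem_commutator c.2 d.2
      have h4 := hC.disjoint
      rw [Subgroup.disjoint_def] at h4
      have h5 := h4 h3 h2
      calc c * d = (c * d * c⁻¹ * d⁻¹) * (d * c) := by group
        _ = d * c := by rw [h5, one_mul]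
    have hall : ∀ x ∈ B n, ∀ y ∈ B n, x * y = y * x := by
      intro x hx y hy
      have hdec : ∀ z : B n, ∃ a ∈ (B (n + 1)).subgroupOf (B n), ∃ c ∈ C, a * c = z := by
        intro z
        have : z ∈ (Set.univ : Set (B n)) := trivial
        rw [← hC.mul_eq] at this
        obtain ⟨a, ha, c, hc', h⟩ := this
        exact ⟨a, ha, c, hc', h⟩
      obtain ⟨a, ha, c, hc1, hac⟩ := hdec ⟨x, hx⟩
      obtain ⟨a', ha', c', hc1', hac'⟩ := hdec ⟨y, hy⟩
      have hx' : x = (a : G) * c := by
        have := congrArg Subtype.val hac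
        exact this.symm
      have hy' : y = (a' : G) * c' := by
        have := congrArg Subtype.val hac'
        exact this.symm
      have hcc : (c : G) * c' = c' * c := congrArg Subtype.val (hCab c hc1 c' hc1')
      have hac1 : ∀ g : G, g * a = a * g := Subgroup.mem_center_iff.mp (hc ha)
      have hac2 : ∀ g : G, g * a' = a' * g := Subgroup.mem_center_iff.mp (hc ha')
      rw [hx', hy']
      calc (a : G) * c * (a' * c') = a * (c * a') * c' := by group
        _ = a * (a' * c) * c' := by rw [hac2]
        _ = (a * a') * (c * c') := by group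
        _ = (a' * a) * (c' * c) := by rw [hac2 a, hcc]
        _ = a' * (a * c') * c := by group
        _ = a' * (c' * a) * c := by rw [← hac1]
        _ = a' * c' * (a * c) := by group
    rw [hBs, Subgroup.commutator_eq_bot_iff_le_centralizer]
    intro x hx
    rw [Subgroup.mem_centralizer_iff]
    intro y hy
    exact hall y hy x hx
  have hone : ∀ n, B n = ⊥ → B 1 = ⊥ := by
    intro n
    induction n with
    | zero =>
      intro h
      have h1 : B 1 ≤ B 0 := by
        rw [hBs]
        exact Subgroup.commutator_le_left _ _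
      rw [h] at h1
      exact le_bot_iff.mp h1
    | succ n ih =>
      intro h
      cases n with
      | zero => exact h
      | succ n => exact ih (hdesc n h)
  have h1 := habel 0 (hone m hBm)
  rw [hB0] at h1
  exact hab h1

end Pool.Agent.H177.UCS
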