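import Mathlib
import Pool.Agent.H177.UC.Lie
import Pool.Agent.H177.UCS.Algebra

set_option autoImplicit false

/-!
# Lie subalgebras of finite Lie algebras with nonzero radical, strict form
-/

namespace Pool.Agent.H177.UCS

open Pool.Agent.H177.UC

universe u v w

variable {S : Type u} {A : Type v} [Field S] [LieRing A] [LieAlgebra S A]

/-- Finite Lie algebras over a field, of dimension at least two, with nonzero radical. -/
theorem lie_radical_strict [Finite A] (hrad : LieAlgebra.radical S A ≠ ⊥)
    (hdim : 2 ≤ Module.finrank S A) : Strict (LieSubalgebra S A) := by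
  have : ¬ LieAlgebra.HasTrivialRadical S A := fun h => hrad h.radical_eq_bot
  rw [LieAlgebra.hasTrivialRadical_iff_no_abelian_ideals] at this
  push Not at this
  obtain ⟨I, hI, hI0⟩ := this
  have hfin : Finite (CommutatorRing A) := inferInstanceAs (Finite A)
  apply strict_transport (lieIso S A)
  let N : Submodule S (CommutatorRing A) :=
    { carrier := {a : CommutatorRing A | (show A from a) ∈ I}
      add_mem' := fun {a b} ha hb => add_mem (S := LieIdeal S A) ha hb
      zero_mem' := zero_mem I
      smul_mem' := fun s a ha => I.smul_mem s ha }
  have hmain := algebra_square_zero N ?_ ?_ ?_ ?_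
  · rcases hmain with h | ⟨M, P, g1, -, g3, g4, g5, g6, ⟨v, hvP, hv⟩⟩
    · exact h
    · exfalso
      have hv0 : v ≠ 0 := by
        rintro rfl
        apply g4
        intro w hw
        obtain ⟨c, hc⟩ := hv w hw
        rw [hc, smul_zero]
        exact zero_mem M
      have hMbot : M = ⊥ := by
        rw [eq_bot_iff]
        intro m hm
        rw [NonUnitalAlgebra.mem_bot]
        by_contra hm0
        -- the line spanned by `m + v`
        have hself : ∀ x : CommutatorRing A, x * x = 0 := fun x => lie_self (show A from x)
        let K : NonUnitalSubalgebra S (CommutatorRing A) :=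
          { carrier := {y | ∃ s : S, y = s • (m + v)}
            add_mem' := by
              rintro _ _ ⟨s, rfl⟩ ⟨s', rfl⟩
              exact ⟨s + s', (add_smul _ _ _).symm⟩
            zero_mem' := ⟨0, (zero_smul _ _).symm⟩
            mul_mem' := by
              rintro _ _ ⟨s, rfl⟩ ⟨s', rfl⟩
              refine ⟨0, ?_⟩
              rw [smul_mul_smul_comm, hself, smul_zero, zero_smul]
            smul_mem' := by
              rintro r _ ⟨s, rfl⟩
              exact ⟨r * s, smul_smul _ _ _⟩ }
        rcases g3 K with h | h
        · have h1 : m + v ∈ M := h ⟨1, (one_smul _ _).symm⟩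
          have h2 : v ∈ M := by
            have := sub_mem h1 hm
            rwa [add_sub_cancel_left] at this
          exact hv0 (g1 v hvP h2)
        · obtain ⟨s, hs⟩ := h hvP
          -- `s • m ∈ P ∩ M`
          have h1 : s • m = v - s • v := by
            rw [smul_add] at hs
            have : v - s • v = s • m + s • v - s • v := by rw [← hs]
            rw [this, add_sub_cancel_right]
          have h2 : s • m ∈ P := by
            rw [h1]
            exact sub_mem hvP (P.smul_mem' s hvP)
          have h3 := g1 _ h2 (M.smul_mem' s hm)
          rcases smul_eq_zero.mp h3 with h | h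
          · rw [h, zero_smul] at hs
            exact hv0 hs
          · exact hm0 h
      have htop : (⊤ : NonUnitalSubalgebra S (CommutatorRing A)) = P := by
        apply g6 ⊤ P (fun h => g4 (le_top.trans h)) g4
        rw [hMbot, inf_bot_eq, inf_bot_eq]
      have hle : Module.finrank S A ≤ 1 := by
        apply finrank_le_one (show A from v)
        intro w
        have hw : (show CommutatorRing A from w) ∈ P := by
          rw [← htop]
          trivial
        obtain ⟨c, hc⟩ := hv _ hw
        exact ⟨c, hc.symm⟩
      omega
  · intro a n hn
    exact lie_mem_right S A I a n hn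
  · intro a n hn
    exact lie_mem_left S A I n a hn
  · intro m hm n hn
    have h1 : ⁅(⟨m, hm⟩ : I), (⟨n, hn⟩ : I)⁆ = 0 := trivial_lie_zero I I _ _
    exact congrArg Subtype.val h1
  · intro h
    apply hI0
    rw [eq_bot_iff]
    intro x hx
    have h1 : (show CommutatorRing A from x) ∈ N := hx
    rw [h, Submodule.mem_bot] at h1
    rw [LieSubmodule.mem_bot]
    exact h1

end Pool.Agent.H177.UCS
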